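import Pool.Agent.Helper884.IC.Compl

/-!
# Supercharacter theories of finite groups
-/

open scoped BigOperators Classical
open Pool.Agent.Helper884 Pool.Agent.Helper884.IC

noncomputable section

set_option linter.unusedSectionVars false

namespace Pool.Agent.Helper7.AS

/-- The function `σ_A = ∑_{χ ∈ A} χ(1) χ` attached to a set `A` of characters. -/
def sigma {G : Type} [Group G] (A : Set (G → ℂ)) (g : G) : ℂ := ∑ᶠ χ ∈ A, χ 1 * χ g

/-- `(X, K)` is a supercharacter theory of the finite group `G` (Diaconis and Isaacs): `X` is a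
partition of the set of irreducible complex characters of `G`, `K` is a partition of `G`,
`|X| = |K|`, `{1} ∈ K`, and `σ_A` is constant on `k` for all `A ∈ X`, `k ∈ K`. -/
structure IsSCT (G : Type) [Group G] (X : Set (Set (G → ℂ))) (K : Set (Set G)) : Prop where
  irr : ∀ A ∈ X, ∀ χ ∈ A, IsIrrChar χ
  nonempty : ∀ A ∈ X, A.Nonempty
  cover : ∀ χ, IsIrrChar χ → ∃! A, A ∈ X ∧ χ ∈ A
  part : Setoid.IsPartition K
  card : X.ncard = K.ncard
  one : {1} ∈ K
  const : ∀ A ∈ X, ∀ k ∈ K, ∀ g ∈ k, ∀ h ∈ k, sigma A g = sigma A h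

variable {G : Type} [Group G] [Fintype G]

theorem sigma_eq_sum {A : Set (G → ℂ)} (hA : ∀ χ ∈ A, IsIrrChar χ) :
    sigma A = ∑ χ ∈ (Irr G).filter (fun χ => χ ∈ A), χ 1 • χ := by
  have hfin : A.Finite := (irr_finite (G := G)).subset fun χ h => hA χ h
  funext g
  unfold sigma
  rw [finsum_mem_eq_finite_toFinset_sum _ hfin, Finset.sum_apply]
  refine Finset.sum_congr ?_ fun χ _ => rfl
  ext χ
  simp only [Set.Finite.mem_toFinset, Finset.mem_filter, mem_Irr]
  exact ⟨fun h => ⟨hA χ h, h⟩, fun h => h.2⟩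

theorem B_sigma {A : Set (G → ℂ)} (hA : ∀ χ ∈ A, IsIrrChar χ) {ψ : G → ℂ} (hψ : IsIrrChar ψ) :
    B (sigma A) ψ = if ψ ∈ A then ψ 1 else 0 := by
  rw [sigma_eq_sum hA, B_sum_left]
  have h1 : ∀ χ ∈ (Irr G).filter (fun χ => χ ∈ A), B (χ 1 • χ) ψ = if χ = ψ then ψ 1 else 0 := by
    intro χ hχ
    rw [Finset.mem_filter, mem_Irr] at hχ
    rw [B_smul_left, B_irr hχ.1 hψ]
    split_ifs with h
    · rw [h, mul_one]
    · rw [mul_zero]
  rw [Finset.sum_congr rfl h1, Finset.sum_ite_eq']
  simp only [Finset.mem_filter, mem_Irr]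
  by_cases h : ψ ∈ A
  · rw [if_pos ⟨hψ, h⟩, if_pos h]
  · rw [if_neg (fun h' => h h'.2), if_neg h]

/-- The functions constant on the blocks of `K`. -/
def constOn (K : Set (Set G)) : Submodule ℂ (G → ℂ) where
  carrier := {f | ∀ k ∈ K, ∀ g ∈ k, ∀ h ∈ k, f g = f h}
  add_mem' := fun ha hb k hk g hg h hh => by
    rw [Pi.add_apply, Pi.add_apply, ha k hk g hg h hh, hb k hk g hg h hh]
  zero_mem' := fun k _ g _ h _ => rfl
  smul_mem' := fun c f hf k hk g hg h hh => by
    rw [Pi.smul_apply, Pi.smul_apply, hf k hk g hg h hh]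

theorem finrank_constOn {K : Set (Set G)} (hK : Setoid.IsPartition K) :
    Module.finrank ℂ (constOn K) = K.ncard := by
  choose bl hbl using fun g : G => (hK.2 g).exists
  have hne : ∀ k : K, ∃ g : G, g ∈ (k : Set G) := by
    intro k
    exact Set.nonempty_iff_ne_empty.2 fun h => hK.1 (h ▸ k.2)
  choose rep hrep using hne
  have huniq : ∀ (k : Set G) (g : G), k ∈ K → g ∈ k → bl g = k := by
    intro k g hk hg
    exact (hK.2 g).unique (hbl g) ⟨hk, hg⟩
  let e : constOn K ≃ₗ[ℂ] (K → ℂ) :=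
    { toFun := fun f k => f.1 (rep k)
      map_add' := fun f g => rfl
      map_smul' := fun c f => rfl
      invFun := fun φ => ⟨fun g => φ ⟨bl g, (hbl g).1⟩, by
        intro k hk g hg h hh
        show φ _ = φ _
        congr 2
        rw [huniq k g hk hg, huniq k h hk hh]⟩
      left_inv := fun f => by
        ext g
        exact f.2 (bl g) (hbl g).1 _ (hrep ⟨bl g, (hbl g).1⟩) _ (hbl g).2
      right_inv := fun φ => by
        funext k
        show φ _ = φ _
        congr 1
        apply Subtype.ext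
        exact huniq k (rep k) k.2 (hrep k) }
  rw [e.finrank_eq, Module.finrank_pi, ← Nat.card_eq_fintype_card, Nat.card_coe_set_eq]

theorem li_sigma {X : Set (Set (G → ℂ))} (hirr : ∀ A ∈ X, ∀ χ ∈ A, IsIrrChar χ)
    (hne : ∀ A ∈ X, A.Nonempty)
    (hdisj : ∀ A ∈ X, ∀ A' ∈ X, ∀ χ, χ ∈ A → χ ∈ A' → A = A') :
    LinearIndependent ℂ (fun A : X => sigma A.1) := by
  rw [linearIndependent_iff']
  intro s c hc i hi
  obtain ⟨χ, hχ⟩ := hne i.1 i.2
  have hirrχ := hirr i.1 i.2 χ hχ
  have h1 := congrArg (fun f => B f χ) hc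
  have h2 : B (∑ A ∈ s, c A • sigma A.1) χ = ∑ A ∈ s, B (c A • sigma A.1) χ := by
    unfold B
    rw [← Finset.mul_sum]
    simp only [Finset.sum_apply, Finset.sum_mul]
    rw [Finset.sum_comm]
  rw [h2, Finset.sum_eq_single i] at h1
  · rw [B_smul_left, B_sigma (hirr i.1 i.2) hirrχ, if_pos hχ] at h1
    have h3 : B (0 : G → ℂ) χ = 0 := by simp [B]
    rw [h3] at h1
    rcases mul_eq_zero.1 h1 with h | h
    · exact h
    · exfalso
      obtain ⟨V, _, _, _, rho, hr, rfl⟩ := hirrχ
      have : Nontrivial V := by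
        by_contra hn
        rw [not_nontrivial_iff_subsingleton] at hn
        have : Subsingleton (Subrepresentation rho) := by
          constructor
          intro a b
          ext x
          have : x = 0 := Subsingleton.elim _ _
          subst this
          simp
        have h5 := hr.toNontrivial
        exact not_subsingleton (Subrepresentation rho) this
      rw [Representation.char_one] at h
      have h4 : (Module.finrank ℂ V : ℂ) ≠ 0 := by
        exact_mod_cast (Module.finrank_pos (R := ℂ) (M := V)).ne'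
      exact h4 h
  · intro A _ hA
    rw [B_smul_left, B_sigma (hirr A.1 A.2) hirrχ, if_neg, mul_zero]
    intro h
    exact hA (Subtype.ext (hdisj A.1 A.2 i.1 i.2 χ h hχ))
  · intro h
    exact absurd hi h

/-- For a supercharacter theory the `σ_A` span the functions constant on the blocks of `K`. -/
theorem IsSCT.span {X : Set (Set (G → ℂ))} {K : Set (Set G)} (h : IsSCT G X K) {f : G → ℂ}
    (hf : f ∈ constOn K) : f ∈ Submodule.span ℂ (Set.range (fun A : X => sigma A.1)) := by
  have hli := li_sigma h.irr h.nonempty fun A hA A' hA' χ h1 h2 =>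
    (h.cover χ (h.irr A hA χ h1)).unique ⟨hA, h1⟩ ⟨hA', h2⟩
  have hle : Submodule.span ℂ (Set.range (fun A : X => sigma A.1)) ≤ constOn K := by
    rw [Submodule.span_le]
    rintro _ ⟨A, rfl⟩
    exact h.const A.1 A.2
  have hX : Finite X := hli.finite
  have := Fintype.ofFinite X
  have h2 : Module.finrank ℂ (Submodule.span ℂ (Set.range (fun A : X => sigma A.1)))
      = Module.finrank ℂ (constOn K) := by
    rw [finrank_span_eq_card hli, finrank_constOn h.part, ← h.card,
      ← Nat.card_eq_fintype_card, Nat.card_coe_set_eq]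
  rw [Submodule.eq_of_le_of_finrank_eq hle h2]
  exact hf

/-- In a supercharacter theory, a function constant on the blocks of `K` has proportional inner
products with the characters in a block of `X`. -/
theorem IsSCT.prop {X : Set (Set (G → ℂ))} {K : Set (Set G)} (h : IsSCT G X K) {f : G → ℂ}
    (hf : f ∈ constOn K) {A : Set (G → ℂ)} (hA : A ∈ X) {χ ψ : G → ℂ} (hχ : χ ∈ A)
    (hψ : ψ ∈ A) : B f χ * ψ 1 = B f ψ * χ 1 := by
  have h1 := h.span hf
  have hirrχ := h.irr A hA χ hχ
  have hirrψ := h.irr A hA ψ hψ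
  clear hf
  induction h1 using Submodule.span_induction with
  | mem f hf =>
    obtain ⟨A', rfl⟩ := hf
    rw [B_sigma (h.irr A'.1 A'.2) hirrχ, B_sigma (h.irr A'.1 A'.2) hirrψ]
    have h2 : χ ∈ A'.1 ↔ ψ ∈ A'.1 := by
      constructor
      · intro h3
        have h4 : A'.1 = A := (h.cover χ hirrχ).unique ⟨A'.2, h3⟩ ⟨hA, hχ⟩
        rw [h4]
        exact hψ
      · intro h3
        have h4 : A'.1 = A := (h.cover ψ hirrψ).unique ⟨A'.2, h3⟩ ⟨hA, hψ⟩
        rw [h4]
        exact hχ
    by_cases h3 : ψ ∈ A'.1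
    · rw [if_pos (h2.2 h3), if_pos h3, mul_comm]
    · rw [if_neg (fun h4 => h3 (h2.1 h4)), if_neg h3, zero_mul, zero_mul]
  | zero => simp [B]
  | add f g _ _ hf hg => rw [B_add_left, B_add_left, add_mul, add_mul, hf, hg]
  | smul c f _ hf => rw [B_smul_left, B_smul_left, mul_assoc, mul_assoc, hf]

end Pool.Agent.Helper7.AS
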