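import Pool.Agent.Helper7.AS.Char
import Pool.Agent.Helper7.AS.SCT

/-!
# André's supercharacter theory of the upper unitriangular group
-/

open scoped BigOperators Classical
open Pool.Agent.Helper884 Pool.Agent.Helper884.IC

noncomputable section

set_option linter.unusedSectionVars false

namespace Pool.Agent.Helper7.AS

variable {n : ℕ} {F : Type} [Field F]

/-- The set of irreducible constituents of the orbit sum `g ↦ ∑_{μ ∈ U λ U} θ(μ(g - 1))`, that is,
of the irreducible characters `χ` with `∑_g S(g) χ(g⁻¹) ≠ 0`. -/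
def constituents [Fintype F] (θ : AddChar F ℂ) (lam : Module.Dual F (nil n F)) :
    Set (UT n F → ℂ) :=
  {χ | IsIrrChar χ ∧ ∑ g : UT n F, orbitSum θ lam g * χ g⁻¹ ≠ 0}

/-- The partition of the irreducible characters of `U_n(F)` in André's supercharacter theory. -/
def andreX (n : ℕ) (F : Type) [Field F] [Fintype F] (θ : AddChar F ℂ) :
    Set (Set (UT n F → ℂ)) :=
  {A | ∃ lam : Module.Dual F (nil n F), A = constituents θ lam}

/-- The partition of `U_n(F)` in André's supercharacter theory. -/
def andreK (n : ℕ) (F : Type) [Field F] : Set (Set (UT n F)) :=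
  {k | ∃ x : UT n F, k = superclass x}

variable [Fintype F] {θ : AddChar F ℂ}

theorem mem_constituents {lam : Module.Dual F (nil n F)} {χ : UT n F → ℂ} :
    χ ∈ constituents θ lam ↔ IsIrrChar χ ∧ B (orbitSum θ lam) χ ≠ 0 := by
  unfold constituents B
  have := cardG_ne (G := UT n F)
  simp [this]

/-- The supercharacter of the block of `λ` is the orbit sum of `λ`. -/
theorem sigma_constituents (hθ : θ ≠ 1) (lam : Module.Dual F (nil n F)) :
    sigma (constituents θ lam) = orbitSum θ lam := by
  rw [sigma_eq_sum (fun χ h => h.1), Finset.sum_filter]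
  conv_rhs => rw [expand (orbitSum θ lam) (isClass_orbitSum lam)]
  refine Finset.sum_congr rfl fun χ hχ => ?_
  rw [mem_Irr] at hχ
  rcases B_orbitSum hθ lam hχ with h | h
  · rw [h, zero_smul, if_neg]
    intro h2
    exact (mem_constituents.1 h2).2 h
  · rw [h, if_pos]
    rw [mem_constituents]
    refine ⟨hχ, ?_⟩
    rw [h]
    exact char_one_ne hχ

theorem orbitSum_one_ne (lam : Module.Dual F (nil n F)) : orbitSum θ lam 1 ≠ 0 := by
  rw [orbitSum_eq, FF_eq_sum]
  simp only [sub1_one, map_zero, AddChar.map_zero_eq_one, Finset.sum_const, nsmul_eq_mul, mul_one]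
  rw [Nat.cast_ne_zero]
  exact (Finset.card_pos.2 ⟨lam, by simpa using mem_dualOrbit_self lam⟩).ne'

theorem constituents_nonempty (hθ : θ ≠ 1) (lam : Module.Dual F (nil n F)) :
    (constituents θ lam).Nonempty := by
  by_contra h
  rw [Set.not_nonempty_iff_eq_empty] at h
  have h1 := congrFun (sigma_constituents hθ lam) 1
  rw [h] at h1
  apply orbitSum_one_ne (θ := θ) lam
  rw [← h1]
  simp [sigma]

theorem constituents_congr {lam lam' : Module.Dual F (nil n F)}
    (h : dualOrbit lam = dualOrbit lam') : constituents θ lam = constituents θ lam' := by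
  have h1 : orbitSum θ lam = orbitSum θ lam' := by
    funext g
    unfold orbitSum
    rw [h]
  unfold constituents
  rw [h1]

theorem andreX_cover (hθ : θ ≠ 1) {χ : UT n F → ℂ} (h : IsIrrChar χ) :
    ∃! A, A ∈ andreX n F θ ∧ χ ∈ A := by
  obtain ⟨lam, hlam⟩ := orbit_exists hθ h
  refine ⟨constituents θ lam, ⟨⟨lam, rfl⟩, mem_constituents.2 ⟨h, hlam⟩⟩, ?_⟩
  rintro _ ⟨⟨lam', rfl⟩, h2⟩
  rw [mem_constituents] at h2
  exact constituents_congr (orbit_unique hθ h h2.2 hlam)

theorem andreK_partition : Setoid.IsPartition (andreK n F) := by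
  constructor
  · rintro ⟨x, hx⟩
    have := mem_superclass_self x
    rw [← hx] at this
    exact this
  · intro g
    refine ⟨superclass g, ⟨⟨g, rfl⟩, mem_superclass_self g⟩, ?_⟩
    rintro _ ⟨⟨x, rfl⟩, h⟩
    exact (superclass_eq h).symm

theorem orbitSum_const (lam : Module.Dual F (nil n F)) : orbitSum θ lam ∈ constOn (andreK n F) := by
  rintro _ ⟨x, rfl⟩ g ⟨u, v, hg⟩ h ⟨u', v', hh⟩
  rw [orbitSum_eq, orbitSum_eq, hg, hh, FF_act, FF_act]

theorem mem_superclass_add1 (u v : UT n F) (y : nil n F) :
    add1 (act u v y) ∈ superclass (add1 y) := ⟨u, v, by rw [sub1_add1, sub1_add1]⟩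

/-- Fourier inversion: functions constant on superclasses are combinations of orbit sums. -/
theorem constOn_span (hθ : θ ≠ 1) {f : UT n F → ℂ} (hf : f ∈ constOn (andreK n F)) :
    f ∈ Submodule.span ℂ (Set.range (fun lam : Module.Dual F (nil n F) => orbitSum θ lam)) := by
  have hinv : ∀ (u v : UT n F) (y : nil n F), f (add1 (act u v y)) = f (add1 y) := by
    intro u v y
    exact hf _ ⟨add1 y, rfl⟩ _ (mem_superclass_add1 u v y) _ (mem_superclass_self _)
  let fh : Module.Dual F (nil n F) → ℂ := fun μ => ∑ y : nil n F, f (add1 y) * θ (-(μ y))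
  have hfh : ∀ (μ : Module.Dual F (nil n F)) (u v : UT n F), fh (μ ∘ₗ act u v) = fh μ := by
    intro μ u v
    let e : nil n F ≃ nil n F :=
      { toFun := act u v
        invFun := act u⁻¹ v⁻¹
        left_inv := fun y => by simp [act_act]
        right_inv := fun y => by simp [act_act] }
    refine Fintype.sum_equiv e _ _ fun y => ?_
    show f (add1 y) * θ (-(μ (act u v y))) = f (add1 (act u v y)) * θ (-(μ (act u v y)))
    rw [hinv]
  have hcard : (Fintype.card (Module.Dual F (nil n F)) : ℂ) ≠ 0 := by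
    exact_mod_cast Fintype.card_ne_zero
  have hinvF : ∀ y : nil n F, (Fintype.card (Module.Dual F (nil n F)) : ℂ) * f (add1 y)
      = ∑ μ : Module.Dual F (nil n F), fh μ * θ (μ y) := by
    intro y
    have h1 : ∀ μ : Module.Dual F (nil n F), fh μ * θ (μ y)
        = ∑ z : nil n F, f (add1 z) * θ (μ (y - z)) := by
      intro μ
      rw [Finset.sum_mul]
      refine Finset.sum_congr rfl fun z _ => ?_
      rw [mul_assoc, ← AddChar.map_add_eq_mul, map_sub]
      congr 2
      ring
    rw [Finset.sum_congr rfl fun μ _ => h1 μ, Finset.sum_comm]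
    have h2 : ∀ z : nil n F, ∑ μ : Module.Dual F (nil n F), f (add1 z) * θ (μ (y - z))
        = if z = y then f (add1 y) * (Fintype.card (Module.Dual F (nil n F)) : ℂ) else 0 := by
      intro z
      rw [← Finset.mul_sum, sum_dual hθ]
      by_cases h : z = y
      · subst h
        simp
      · rw [if_neg h, if_neg, mul_zero]
        intro h3
        exact h (sub_eq_zero.1 h3).symm
    rw [Finset.sum_congr rfl fun z _ => h2 z, Finset.sum_ite_eq' Finset.univ y]
    simp [mul_comm]
  have hfin : f = ∑ lam : Module.Dual F (nil n F),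
      (((Fintype.card (Module.Dual F (nil n F)) : ℂ))⁻¹ *
        ((((dualOrbit lam).toFinset.card : ℂ))⁻¹ * fh lam)) • orbitSum θ lam := by
    funext g
    rw [Finset.sum_apply]
    have h1 := hinvF (sub1 g)
    rw [add1_sub1] at h1
    rw [← sum_orbits (fun μ => fh μ * θ (μ (sub1 g)))] at h1
    have h2 : f g = ((Fintype.card (Module.Dual F (nil n F)) : ℂ))⁻¹ *
        ((Fintype.card (Module.Dual F (nil n F)) : ℂ) * f g) := by
      rw [← mul_assoc, inv_mul_cancel₀ hcard, one_mul]
    rw [h2, h1, Finset.mul_sum]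
    refine Finset.sum_congr rfl fun lam _ => ?_
    have h3 : ∑ μ ∈ (dualOrbit lam).toFinset, fh μ * θ (μ (sub1 g))
        = fh lam * ∑ μ ∈ (dualOrbit lam).toFinset, θ (μ (sub1 g)) := by
      rw [Finset.mul_sum]
      refine Finset.sum_congr rfl fun μ hμ => ?_
      rw [Set.mem_toFinset] at hμ
      obtain ⟨u, v, rfl⟩ := hμ
      rw [hfh]
    rw [h3, Pi.smul_apply, orbitSum_eq, FF_eq_sum, smul_eq_mul]
    ring
  rw [hfin]
  exact Submodule.sum_mem _ fun lam _ => Submodule.smul_mem _ _
    (Submodule.subset_span ⟨lam, rfl⟩)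

theorem andre_card (hθ : θ ≠ 1) : (andreX n F θ).ncard = (andreK n F).ncard := by
  have hirr : ∀ A ∈ andreX n F θ, ∀ χ ∈ A, IsIrrChar χ := by
    rintro _ ⟨lam, rfl⟩ χ h
    exact h.1
  have hne : ∀ A ∈ andreX n F θ, A.Nonempty := by
    rintro _ ⟨lam, rfl⟩
    exact constituents_nonempty hθ lam
  have hli := li_sigma hirr hne fun A hA A' hA' χ h1 h2 =>
    (andreX_cover hθ (hirr A hA χ h1)).unique ⟨hA, h1⟩ ⟨hA', h2⟩
  have hX : Finite (andreX n F θ) := hli.finite
  have := Fintype.ofFinite (andreX n F θ)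
  have h1 : Submodule.span ℂ (Set.range (fun A : andreX n F θ => sigma A.1))
      = constOn (andreK n F) := by
    apply le_antisymm
    · rw [Submodule.span_le]
      rintro _ ⟨⟨A, lam, rfl⟩, rfl⟩
      show sigma (constituents θ lam) ∈ constOn (andreK n F)
      rw [sigma_constituents hθ]
      exact orbitSum_const lam
    · intro f hf
      refine Submodule.span_mono ?_ (constOn_span hθ hf)
      rintro _ ⟨lam, rfl⟩
      exact ⟨⟨_, lam, rfl⟩, sigma_constituents hθ lam⟩
  have h2 := finrank_span_eq_card hli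
  rw [h1, finrank_constOn andreK_partition, ← Nat.card_eq_fintype_card,
    Nat.card_coe_set_eq] at h2
  exact h2.symm

/-- André's theory is a supercharacter theory. -/
theorem andre_isSCT (hθ : θ ≠ 1) : IsSCT (UT n F) (andreX n F θ) (andreK n F) where
  irr := by
    rintro _ ⟨lam, rfl⟩ χ h
    exact h.1
  nonempty := by
    rintro _ ⟨lam, rfl⟩
    exact constituents_nonempty hθ lam
  cover := fun χ h => andreX_cover hθ h
  part := andreK_partition
  card := andre_card hθ
  one := ⟨1, superclass_one.symm⟩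
  const := by
    rintro _ ⟨lam, rfl⟩ k hk g hg h hh
    rw [sigma_constituents hθ]
    exact orbitSum_const lam k hk g hg h hh

end Pool.Agent.Helper7.AS
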