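import Mathlib

/-!
# Upper unitriangular groups: basic definitions
-/

open scoped BigOperators Classical
open Matrix

namespace Pool.Agent.Helper7.AS

variable (n : ℕ) (F : Type) [Field F]

/-- The space `𝔫` of strictly upper triangular `n × n` matrices over `F`. -/
def nil : Submodule F (Matrix (Fin n) (Fin n) F) where
  carrier := {x | ∀ i j, j ≤ i → x i j = 0}
  add_mem' := fun ha hb i j h => by
    rw [Matrix.add_apply, ha i j h, hb i j h, add_zero]
  zero_mem' := fun i j _ => rfl
  smul_mem' := fun c x hx i j h => by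
    rw [Matrix.smul_apply, hx i j h, smul_zero]

variable {n F}

theorem mem_nil {x : Matrix (Fin n) (Fin n) F} : x ∈ nil n F ↔ ∀ i j, j ≤ i → x i j = 0 := Iff.rfl

/-- `x` is upper triangular with zeros strictly below the diagonal. -/
def IsUpper (x : Matrix (Fin n) (Fin n) F) : Prop := ∀ i j, j < i → x i j = 0

theorem mul_nil {u y : Matrix (Fin n) (Fin n) F} (hu : IsUpper u) (hy : y ∈ nil n F) :
    u * y ∈ nil n F := by
  intro i j hij
  rw [Matrix.mul_apply]
  refine Finset.sum_eq_zero fun k _ => ?_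
  rcases lt_or_ge k i with h | h
  · rw [hu i k h, zero_mul]
  · rw [hy k j (hij.trans h), mul_zero]

theorem nil_mul {y v : Matrix (Fin n) (Fin n) F} (hv : IsUpper v) (hy : y ∈ nil n F) :
    y * v ∈ nil n F := by
  intro i j hij
  rw [Matrix.mul_apply]
  refine Finset.sum_eq_zero fun k _ => ?_
  rcases lt_or_ge j k with h | h
  · rw [hv k j h, mul_zero]
  · rw [hy i k (h.trans hij), zero_mul]

theorem isUpper_of_sub_one {g : Matrix (Fin n) (Fin n) F} (h : g - 1 ∈ nil n F) : IsUpper g := by
  intro i j hij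
  have h1 := h i j hij.le
  rw [Matrix.sub_apply, Matrix.one_apply_ne hij.ne', sub_zero] at h1
  exact h1

variable (n F)

/-- The group `U = U_n(F) = 1 + 𝔫` of upper unitriangular `n × n` matrices over `F`. -/
def UT : Subgroup (Matrix (Fin n) (Fin n) F)ˣ where
  carrier := {g | (g : Matrix (Fin n) (Fin n) F) - 1 ∈ nil n F}
  mul_mem' := by
    intro a b ha hb
    have h : ((a * b : (Matrix (Fin n) (Fin n) F)ˣ) : Matrix (Fin n) (Fin n) F) - 1
        = (a : Matrix (Fin n) (Fin n) F) * ((b : Matrix (Fin n) (Fin n) F) - 1)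
          + ((a : Matrix (Fin n) (Fin n) F) - 1) := by
      rw [Units.val_mul]; noncomm_ring
    show _ ∈ nil n F
    rw [h]
    exact Submodule.add_mem _ (mul_nil (isUpper_of_sub_one ha) hb) ha
  one_mem' := by
    show ((1 : (Matrix (Fin n) (Fin n) F)ˣ) : Matrix (Fin n) (Fin n) F) - 1 ∈ nil n F
    rw [Units.val_one, sub_self]
    exact Submodule.zero_mem _
  inv_mem' := by
    intro a ha
    have hU : IsUpper (a : Matrix (Fin n) (Fin n) F) := isUpper_of_sub_one ha
    have hinv : IsUpper ((a⁻¹ : (Matrix (Fin n) (Fin n) F)ˣ) : Matrix (Fin n) (Fin n) F) := by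
      let _ : Invertible (a : Matrix (Fin n) (Fin n) F) := a.invertible
      have h1 : Matrix.BlockTriangular (a : Matrix (Fin n) (Fin n) F) id := fun i j h => hU i j h
      have h2 := Matrix.blockTriangular_inv_of_blockTriangular h1
      rw [Matrix.coe_units_inv]
      exact fun i j h => h2 h
    have h : ((a⁻¹ : (Matrix (Fin n) (Fin n) F)ˣ) : Matrix (Fin n) (Fin n) F) - 1
        = -(((a⁻¹ : (Matrix (Fin n) (Fin n) F)ˣ) : Matrix (Fin n) (Fin n) F) *
          ((a : Matrix (Fin n) (Fin n) F) - 1)) := by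
      rw [mul_sub, Units.inv_mul, mul_one]; noncomm_ring
    show _ ∈ nil n F
    rw [h]
    exact Submodule.neg_mem _ (mul_nil hinv ha)

variable {n F}

/-- The matrix of an element of `U`. -/
abbrev mat (u : UT n F) : Matrix (Fin n) (Fin n) F := (u.1 : Matrix (Fin n) (Fin n) F)

@[simp] theorem mat_mul (u v : UT n F) : mat (u * v) = mat u * mat v := rfl

@[simp] theorem mat_one : mat (1 : UT n F) = 1 := rfl

theorem mat_inj {u v : UT n F} (h : mat u = mat v) : u = v :=
  Subtype.ext (Units.ext h)

@[simp] theorem mat_inv_mul (u : UT n F) : mat u⁻¹ * mat u = 1 := by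
  rw [← mat_mul, inv_mul_cancel, mat_one]

@[simp] theorem mat_mul_inv (u : UT n F) : mat u * mat u⁻¹ = 1 := by
  rw [← mat_mul, mul_inv_cancel, mat_one]

theorem mat_upper (u : UT n F) : IsUpper (mat u) := isUpper_of_sub_one u.2

theorem mat_diag (u : UT n F) (i : Fin n) : mat u i i = 1 := by
  have h := u.2 i i le_rfl
  rw [Matrix.sub_apply, Matrix.one_apply_eq] at h
  exact sub_eq_zero.1 h

/-- The linear map `y ↦ u y v` of `𝔫`. -/
def act (u v : UT n F) : nil n F →ₗ[F] nil n F where
  toFun y := ⟨mat u * y * mat v, nil_mul (mat_upper v) (mul_nil (mat_upper u) y.2)⟩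
  map_add' := fun x y => by
    ext1
    simp only [Submodule.coe_add, mul_add, add_mul]
  map_smul' := fun c x => by
    ext1
    simp

@[simp] theorem coe_act (u v : UT n F) (y : nil n F) :
    (act u v y : Matrix (Fin n) (Fin n) F) = mat u * y * mat v := rfl

theorem act_act (u v u' v' : UT n F) (y : nil n F) :
    act u v (act u' v' y) = act (u * u') (v' * v) y := by
  ext1
  simp only [coe_act, mat_mul, Matrix.mul_assoc]

@[simp] theorem act_one (y : nil n F) : act 1 1 y = y := by
  ext1
  simp

/-- The element `g - 1` of `𝔫`, for `g` in `U`. -/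
def sub1 (g : UT n F) : nil n F := ⟨mat g - 1, g.2⟩

@[simp] theorem coe_sub1 (g : UT n F) : (sub1 g : Matrix (Fin n) (Fin n) F) = mat g - 1 := rfl

/-- The element `1 + x` of `U`, for `x` in `𝔫`. -/
noncomputable def add1 (x : nil n F) : UT n F :=
  ⟨((Matrix.isUnit_iff_isUnit_det _).2 (by
      have h : ((1 : Matrix (Fin n) (Fin n) F) + x).det = 1 := by
        rw [Matrix.det_of_isUpperTriangular]
        · refine Finset.prod_eq_one fun i _ => ?_
          rw [Matrix.add_apply, Matrix.one_apply_eq, x.2 i i le_rfl, add_zero]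
        · intro i j hij
          have h' : j < i := hij
          rw [Matrix.add_apply, Matrix.one_apply_ne h'.ne', x.2 i j h'.le, add_zero]
      rw [h]; exact isUnit_one) : IsUnit ((1 : Matrix (Fin n) (Fin n) F) + x)).unit, by
    show ((IsUnit.unit _ : (Matrix (Fin n) (Fin n) F)ˣ) : Matrix (Fin n) (Fin n) F) - 1 ∈ nil n F
    rw [IsUnit.unit_spec, add_sub_cancel_left]
    exact x.2⟩

@[simp] theorem mat_add1 (x : nil n F) : mat (add1 x) = 1 + x := by
  unfold add1
  exact IsUnit.unit_spec _

/-- `U` is in bijection with `𝔫` by `g ↦ g - 1`. -/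
noncomputable def equivNil : UT n F ≃ nil n F where
  toFun := sub1
  invFun := add1
  left_inv := fun g => by
    apply mat_inj
    rw [mat_add1, coe_sub1, add_sub_cancel]
  right_inv := fun x => by
    ext1
    rw [coe_sub1, mat_add1, add_sub_cancel_left]

@[simp] theorem equivNil_apply (g : UT n F) : equivNil g = sub1 g := rfl

@[simp] theorem sub1_add1 (x : nil n F) : sub1 (add1 x) = x := equivNil.right_inv x

@[simp] theorem add1_sub1 (g : UT n F) : add1 (sub1 g) = g := equivNil.left_inv g

@[simp] theorem sub1_one : sub1 (1 : UT n F) = 0 := by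
  ext1
  simp

/-- The two-sided orbit `U μ U` of a linear functional on `𝔫`, where `(u μ v)(y) = μ(u y v)`. -/
def dualOrbit (lam : Module.Dual F (nil n F)) : Set (Module.Dual F (nil n F)) :=
  {μ | ∃ u v : UT n F, μ = lam ∘ₗ act u v}

/-- The superclass of `x` in `U`: all `g` with `g - 1 ∈ U (x - 1) U`. -/
def superclass (x : UT n F) : Set (UT n F) :=
  {g | ∃ u v : UT n F, sub1 g = act u v (sub1 x)}

theorem mem_dualOrbit_self (lam : Module.Dual F (nil n F)) : lam ∈ dualOrbit lam :=
  ⟨1, 1, by ext y; simp⟩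

theorem dualOrbit_eq {lam μ : Module.Dual F (nil n F)} (h : μ ∈ dualOrbit lam) :
    dualOrbit μ = dualOrbit lam := by
  obtain ⟨u, v, rfl⟩ := h
  ext ν
  constructor
  · rintro ⟨a, b, rfl⟩
    refine ⟨u * a, b * v, ?_⟩
    ext y
    simp only [LinearMap.comp_apply, act_act]
  · rintro ⟨a, b, rfl⟩
    refine ⟨u⁻¹ * a, b * v⁻¹, ?_⟩
    ext y
    simp only [LinearMap.comp_apply, act_act]
    rw [show u * (u⁻¹ * a) = a by group, show b * v⁻¹ * v = b by group]

theorem mem_superclass_self (x : UT n F) : x ∈ superclass x := ⟨1, 1, by simp⟩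

theorem superclass_eq {x g : UT n F} (h : g ∈ superclass x) : superclass g = superclass x := by
  obtain ⟨u, v, h⟩ := h
  ext k
  constructor
  · rintro ⟨a, b, hk⟩
    exact ⟨a * u, v * b, by rw [hk, h, act_act]⟩
  · rintro ⟨a, b, hk⟩
    refine ⟨a * u⁻¹, v⁻¹ * b, ?_⟩
    rw [hk, h, act_act, show a * u⁻¹ * u = a by group, show v * (v⁻¹ * b) = b by group]

theorem superclass_one : superclass (1 : UT n F) = {1} := by
  ext g
  constructor
  · rintro ⟨u, v, h⟩
    rw [sub1_one, map_zero, ← sub1_one] at h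
    exact equivNil.injective h
  · rintro rfl
    exact mem_superclass_self _

end Pool.Agent.Helper7.AS
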