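import Pool.Agent.Helper7.AS.Andre

/-!
# The supercharacters of single boxes
-/

open scoped BigOperators Classical
open Pool.Agent.Helper884 Pool.Agent.Helper884.IC
open Matrix

noncomputable section

set_option linter.unusedSectionVars false

namespace Pool.Agent.Helper7.AS

variable {n : ℕ} {F : Type} [Field F]

/-- The functional `y ↦ a y_{ij}` on `𝔫`. -/
def boxFun (i j : Fin n) (a : F) : Module.Dual F (nil n F) where
  toFun y := a * (y : Matrix (Fin n) (Fin n) F) i j
  map_add' := fun x y => by
    rw [Submodule.coe_add, Matrix.add_apply, mul_add]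
  map_smul' := fun c x => by
    rw [Submodule.coe_smul, Matrix.smul_apply, smul_eq_mul, RingHom.id_apply, smul_eq_mul]
    ring

@[simp] theorem boxFun_apply (i j : Fin n) (a : F) (y : nil n F) :
    boxFun i j a y = a * (y : Matrix (Fin n) (Fin n) F) i j := rfl

/-- The single-box supercharacter of position `(i, j)` and label `a`: the multiple of the orbit
sum of the functional `y ↦ a y_{ij}` by `q^{-(j - i - 1)}`. -/
def boxChar [Fintype F] (θ : AddChar F ℂ) (i j : Fin n) (a : F) (g : UT n F) : ℂ :=
  ((Fintype.card F : ℂ) ^ ((j : ℕ) - i - 1))⁻¹ * orbitSum θ (boxFun i j a) g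

/-- Row vectors supported on the columns strictly between `i` and `j`. -/
def V0 (F : Type) [Field F] (i j : Fin n) : Submodule F (Fin n → F) where
  carrier := {c | ∀ l, ¬ (i < l ∧ l < j) → c l = 0}
  add_mem' := fun ha hb l h => by rw [Pi.add_apply, ha l h, hb l h, add_zero]
  zero_mem' := fun l _ => rfl
  smul_mem' := fun c x hx l h => by rw [Pi.smul_apply, hx l h, smul_zero]

/-- The functional `y ↦ a (e_i + r) y (e_j + c)`. -/
def rc (i j : Fin n) (a : F) (r c : Fin n → F) : Module.Dual F (nil n F) where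
  toFun y := a * ((Pi.single i 1 + r) ᵥ* (y : Matrix (Fin n) (Fin n) F)) ⬝ᵥ (Pi.single j 1 + c)
  map_add' := fun x y => by
    rw [Submodule.coe_add, Matrix.vecMul_add, add_dotProduct, mul_add]
  map_smul' := fun c x => by
    rw [Submodule.coe_smul, Matrix.vecMul_smul, smul_dotProduct, RingHom.id_apply, smul_eq_mul,
      smul_eq_mul]
    ring

theorem rc_apply (i j : Fin n) (a : F) (r c : Fin n → F) (y : nil n F) :
    rc i j a r c y
      = a * ((Pi.single i 1 + r) ᵥ* (y : Matrix (Fin n) (Fin n) F)) ⬝ᵥ (Pi.single j 1 + c) := rfl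

theorem rc_apply_sum (i j : Fin n) (a : F) (r c : Fin n → F) (y : nil n F) :
    rc i j a r c y = a * ∑ k, ∑ l, (Pi.single i 1 + r : Fin n → F) k * (y : Matrix (Fin n) (Fin n) F) k l *
      (Pi.single j 1 + c : Fin n → F) l := by
  rw [rc_apply]
  congr 1
  simp only [dotProduct, vecMul]
  rw [Finset.sum_comm]
  refine Finset.sum_congr rfl fun l _ => ?_
  rw [Finset.sum_mul]

theorem box_act_sum (i j : Fin n) (a : F) (u v : UT n F) (y : nil n F) :
    boxFun i j a (act u v y) = a * ∑ k, ∑ l, mat u i k * (y : Matrix (Fin n) (Fin n) F) k l *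
      mat v l j := by
  rw [boxFun_apply, coe_act]
  congr 1
  rw [Matrix.mul_apply]
  simp only [Matrix.mul_apply, Finset.sum_mul]
  rw [Finset.sum_comm]

/-- The orbit of the functional of a box. -/
theorem mem_orbit_box {i j : Fin n} (hij : i < j) (a : F) (μ : Module.Dual F (nil n F)) :
    μ ∈ dualOrbit (boxFun i j a) ↔ ∃ r ∈ V0 F i j, ∃ c ∈ V0 F i j, μ = rc i j a r c := by
  constructor
  · rintro ⟨u, v, rfl⟩
    refine ⟨fun k => if i < k ∧ k < j then mat u i k else 0, fun l hl => if_neg hl,
      fun l => if i < l ∧ l < j then mat v l j else 0, fun l hl => if_neg hl, ?_⟩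
    ext y
    rw [LinearMap.comp_apply, box_act_sum, rc_apply_sum]
    congr 1
    refine Finset.sum_congr rfl fun k _ => Finset.sum_congr rfl fun l _ => ?_
    simp only [Pi.add_apply]
    rcases le_or_gt l k with h1 | h1
    · rw [y.2 k l h1]
      simp
    · rcases lt_or_ge k i with h2 | h2
      · rw [mat_upper u i k h2, Pi.single_eq_of_ne h2.ne, if_neg (fun h => absurd h.1 h2.not_gt)]
        simp
      rcases lt_or_ge j l with h3 | h3
      · have h3' : ¬ (i < l ∧ l < j) := fun h => absurd h.2 h3.not_gt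
        rw [mat_upper v l j h3, Pi.single_eq_of_ne h3.ne', if_neg h3']
        simp
      have h4 : (Pi.single i (1 : F) : Fin n → F) k + (if i < k ∧ k < j then mat u i k else 0)
          = mat u i k := by
        rcases eq_or_lt_of_le h2 with h5 | h5
        · subst h5
          rw [Pi.single_eq_same, if_neg (fun h => lt_irrefl _ h.1), mat_diag, add_zero]
        · rw [Pi.single_eq_of_ne h5.ne', if_pos ⟨h5, h1.trans_le h3⟩, zero_add]
      have h6 : (Pi.single j (1 : F) : Fin n → F) l + (if i < l ∧ l < j then mat v l j else 0)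
          = mat v l j := by
        rcases eq_or_lt_of_le h3 with h5 | h5
        · subst h5
          rw [Pi.single_eq_same, if_neg (fun h => lt_irrefl _ h.2), mat_diag, add_zero]
        · rw [Pi.single_eq_of_ne h5.ne, if_pos ⟨h2.trans_lt h1, h5⟩, zero_add]
      rw [h4, h6]
  · rintro ⟨r, hr, c, hc, rfl⟩
    let x : nil n F := ⟨fun k l => if k = i then r l else 0, by
      intro k l hkl
      show (if k = i then r l else 0) = 0
      split_ifs with h
      · subst h
        exact hr l fun h' => absurd h'.1 hkl.not_gt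
      · rfl⟩
    let x' : nil n F := ⟨fun k l => if l = j then c k else 0, by
      intro k l hkl
      show (if l = j then c k else 0) = 0
      split_ifs with h
      · subst h
        exact hc k fun h' => absurd h'.2 hkl.not_gt
      · rfl⟩
    refine ⟨add1 x, add1 x', ?_⟩
    ext y
    rw [LinearMap.comp_apply, box_act_sum, rc_apply_sum]
    congr 1
    refine Finset.sum_congr rfl fun k _ => Finset.sum_congr rfl fun l _ => ?_
    have h1 : mat (add1 x) i k = (Pi.single i 1 + r : Fin n → F) k := by
      rw [mat_add1, Matrix.add_apply, Pi.add_apply]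
      congr 1
      · rw [Matrix.one_apply, Pi.single_apply]
        simp only [eq_comm]
      · show (if i = i then r k else 0) = r k
        rw [if_pos rfl]
    have h2 : mat (add1 x') l j = (Pi.single j 1 + c : Fin n → F) l := by
      rw [mat_add1, Matrix.add_apply, Pi.add_apply]
      congr 1
      · rw [Matrix.one_apply, Pi.single_apply]
      · show (if j = j then c l else 0) = c l
        rw [if_pos rfl]
    rw [h1, h2]

/-- The matrix unit as an element of `𝔫`. -/
def eu (i j : Fin n) (h : i < j) : nil n F := ⟨Matrix.single i j 1, by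
  intro k l hkl
  rw [Matrix.single_apply, if_neg]
  rintro ⟨rfl, rfl⟩
  exact absurd h hkl.not_gt⟩

theorem rc_eu (i j : Fin n) (a : F) (r c : Fin n → F) (k l : Fin n) (h : k < l) :
    rc i j a r c (eu k l h) = a * ((Pi.single i 1 + r : Fin n → F) k * (Pi.single j 1 + c : Fin n → F) l) := by
  rw [rc_apply_sum]
  congr 1
  rw [Finset.sum_eq_single k, Finset.sum_eq_single l]
  · show _ * (Matrix.single k l (1 : F)) k l * _ = _
    rw [Matrix.single_apply_same, mul_one]
  · intro l' _ hl'
    show _ * (Matrix.single k l (1 : F)) k l' * _ = _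
    rw [Matrix.single_apply, if_neg (fun h => hl' h.2.symm), mul_zero, zero_mul]
  · intro h'; exact absurd (Finset.mem_univ _) h'
  · intro k' _ hk'
    refine Finset.sum_eq_zero fun l' _ => ?_
    show _ * (Matrix.single k l (1 : F)) k' l' * _ = _
    rw [Matrix.single_apply, if_neg (fun h => hk' h.1.symm), mul_zero, zero_mul]
  · intro h'; exact absurd (Finset.mem_univ _) h'

theorem rc_inj {i j : Fin n} {a : F} (ha : a ≠ 0) {r c r' c' : Fin n → F}
    (hr : r ∈ V0 F i j) (hc : c ∈ V0 F i j) (hr' : r' ∈ V0 F i j) (hc' : c' ∈ V0 F i j)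
    (h : rc i j a r c = rc i j a r' c') : r = r' ∧ c = c' := by
  have hj : ∀ c ∈ V0 F i j, (Pi.single j (1 : F) + c : Fin n → F) j = 1 := by
    intro c hc
    rw [Pi.add_apply, Pi.single_eq_same, hc j (fun h => lt_irrefl _ h.2), add_zero]
  have hi : ∀ c ∈ V0 F i j, (Pi.single i (1 : F) + c : Fin n → F) i = 1 := by
    intro c hc
    rw [Pi.add_apply, Pi.single_eq_same, hc i (fun h => lt_irrefl _ h.1), add_zero]
  constructor
  · funext k
    by_cases hk : i < k ∧ k < j
    · have h1 := LinearMap.congr_fun h (eu k j hk.2)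
      rw [rc_eu, rc_eu, hj c hc, hj c' hc', mul_one, mul_one, Pi.add_apply, Pi.add_apply,
        Pi.single_eq_of_ne hk.1.ne', zero_add, zero_add] at h1
      exact mul_left_cancel₀ ha h1
    · rw [hr k hk, hr' k hk]
  · funext l
    by_cases hl : i < l ∧ l < j
    · have h1 := LinearMap.congr_fun h (eu i l hl.1)
      rw [rc_eu, rc_eu, hi r hr, hi r' hr', one_mul, one_mul, Pi.add_apply, Pi.add_apply,
        Pi.single_eq_of_ne hl.2.ne, zero_add, zero_add] at h1
      exact mul_left_cancel₀ ha h1
    · rw [hc l hl, hc' l hl]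

variable [Fintype F] {θ : AddChar F ℂ}

theorem FF_box {i j : Fin n} (hij : i < j) {a : F} (ha : a ≠ 0) (y : nil n F) :
    FF θ (boxFun i j a) y = ∑ r : V0 F i j, ∑ c : V0 F i j, θ (rc i j a r c y) := by
  rw [FF_eq_sum, ← Fintype.sum_prod_type']
  symm
  refine Finset.sum_bij (fun (p : V0 F i j × V0 F i j) _ => rc i j a p.1 p.2) ?_ ?_ ?_ ?_
  · intro p _
    rw [Set.mem_toFinset, mem_orbit_box hij]
    exact ⟨_, p.1.2, _, p.2.2, rfl⟩
  · intro p _ p' _ h
    obtain ⟨h1, h2⟩ := rc_inj ha p.1.2 p.2.2 p'.1.2 p'.2.2 h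
    exact Prod.ext (Subtype.ext h1) (Subtype.ext h2)
  · intro μ hμ
    rw [Set.mem_toFinset, mem_orbit_box hij] at hμ
    obtain ⟨r, hr, c, hc, rfl⟩ := hμ
    exact ⟨(⟨r, hr⟩, ⟨c, hc⟩), Finset.mem_univ _, rfl⟩
  · intro p _
    rfl

theorem card_V0 (i j : Fin n) :
    Fintype.card (V0 F i j) = Fintype.card F ^ ((j : ℕ) - i - 1) := by
  let e : V0 F i j ≃ ({l : Fin n // i < l ∧ l < j} → F) :=
    { toFun := fun c l => c.1 l.1
      invFun := fun φ => ⟨fun l => if h : i < l ∧ l < j then φ ⟨l, h⟩ else 0, fun l hl => dif_neg hl⟩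
      left_inv := fun c => by
        ext l
        by_cases h : i < l ∧ l < j
        · simp [h]
        · simp [h, c.2 l h]
      right_inv := fun φ => by
        funext l
        simp [l.2] }
  rw [Fintype.card_congr e, Fintype.card_fun]
  congr 1
  have h1 : Fintype.card {l : Fin n // i < l ∧ l < j} = (Finset.Ioo i j).card := by
    rw [Fintype.card_subtype]
    congr 1
    ext l
    simp
  rw [h1, Fin.card_Ioo]

/-- The condition that `s` vanishes strictly between `i` and `j`. -/
def Van (i j : Fin n) (s : Fin n → F) : Prop := ∀ l, i < l → l < j → s l = 0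

theorem sum_c (hθ : θ ≠ 1) (i j : Fin n) {a : F} (ha : a ≠ 0) (s : Fin n → F) :
    ∑ c : V0 F i j, θ (a * s ⬝ᵥ (Pi.single j 1 + (c : Fin n → F)))
      = θ (a * s j) * if Van i j s then (Fintype.card F : ℂ) ^ ((j : ℕ) - i - 1) else 0 := by
  have h0 : ∀ c : V0 F i j, θ (a * s ⬝ᵥ (Pi.single j 1 + (c : Fin n → F)))
      = θ (a * s j) * θ (a * s ⬝ᵥ (c : Fin n → F)) := by
    intro c
    rw [← AddChar.map_add_eq_mul, dotProduct_add, dotProduct_single, mul_one, mul_add]
  rw [Finset.sum_congr rfl fun c _ => h0 c, ← Finset.mul_sum]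
  congr 1
  let ev : V0 F i j →+ F :=
    { toFun := fun c => a * s ⬝ᵥ (c : Fin n → F)
      map_zero' := by simp
      map_add' := fun x y => by
        rw [Submodule.coe_add, dotProduct_add, mul_add] }
  have h := AddChar.sum_eq_ite (θ.compAddMonoidHom ev)
  have h1 : (θ.compAddMonoidHom ev = 0) ↔ Van i j s := by
    constructor
    · intro h2 l hl hl'
      by_contra hs
      apply hθ
      ext x
      let c : V0 F i j := ⟨Pi.single l (x / (a * s l)), by
        intro l' hl''
        rw [Pi.single_eq_of_ne]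
        rintro rfl
        exact hl'' ⟨hl, hl'⟩⟩
      have h3 := DFunLike.congr_fun h2 c
      have h4 : ev c = x := by
        show a * s ⬝ᵥ (Pi.single l (x / (a * s l)) : Fin n → F) = x
        rw [dotProduct_single]
        field_simp
      rw [AddChar.compAddMonoidHom_apply, h4] at h3
      simpa using h3
    · intro h2
      ext c
      have h3 : ev c = 0 := by
        show a * s ⬝ᵥ (c : Fin n → F) = 0
        have : s ⬝ᵥ (c : Fin n → F) = 0 := by
          refine Finset.sum_eq_zero fun l _ => ?_
          by_cases hl : i < l ∧ l < j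
          · rw [h2 l hl.1 hl.2, zero_mul]
          · rw [c.2 l hl, mul_zero]
        rw [this, mul_zero]
      rw [AddChar.compAddMonoidHom_apply, h3]
      simp
  simp only [h1] at h
  rw [card_V0, Nat.cast_pow] at h
  exact h

/-- The orbit sum of a box. -/
theorem FF_box' (hθ : θ ≠ 1) {i j : Fin n} (hij : i < j) {a : F} (ha : a ≠ 0) (y : nil n F) :
    FF θ (boxFun i j a) y = (Fintype.card F : ℂ) ^ ((j : ℕ) - i - 1) *
      ∑ r : V0 F i j, if Van i j ((Pi.single i 1 + (r : Fin n → F)) ᵥ*
          (y : Matrix (Fin n) (Fin n) F))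
        then θ (a * ((Pi.single i 1 + (r : Fin n → F)) ᵥ* (y : Matrix (Fin n) (Fin n) F)) j)
        else 0 := by
  rw [FF_box hij ha, Finset.mul_sum]
  refine Finset.sum_congr rfl fun r _ => ?_
  have h := sum_c hθ i j ha ((Pi.single i 1 + (r : Fin n → F)) ᵥ*
    (y : Matrix (Fin n) (Fin n) F))
  simp only [rc_apply]
  rw [h]
  split_ifs
  · ring
  · ring

end Pool.Agent.Helper7.AS
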