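import Pool.Agent.Helper7.AS.Four

/-!
# Orbit sums and irreducible characters
-/

open scoped BigOperators Classical
open Matrix Representation
open Pool.Agent.Helper884 Pool.Agent.Helper884.IC

set_option linter.unusedSectionVars false

noncomputable section

namespace Pool.Agent.Helper7.AS

section General

variable {G : Type} [Group G] [Fintype G]

theorem Top_comp {V : Type} [AddCommGroup V] [Module ℂ V] (rho : Representation ℂ G V)
    (f h : G → ℂ) :
    IC.Top rho f * IC.Top rho h = IC.Top rho (fun g => ∑ x : G, f x * h (g * x⁻¹)) := by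
  unfold IC.Top
  rw [Finset.sum_mul_sum]
  have h1 : ∀ x : G, ∑ y : G, (f x • rho x⁻¹) * (h y • rho y⁻¹)
      = ∑ g : G, (f x * h (g * x⁻¹)) • rho g⁻¹ := by
    intro x
    refine Fintype.sum_equiv (Equiv.mulRight x) _ _ fun y => ?_
    simp only [Equiv.coe_mulRight, mul_inv_cancel_right, _root_.mul_inv_rev, map_mul,
      smul_mul_assoc, mul_smul_comm, smul_smul, mul_comm (h y)]
  rw [Finset.sum_congr rfl fun x _ => h1 x, Finset.sum_comm]
  refine Finset.sum_congr rfl fun g _ => ?_
  rw [Finset.sum_smul]

theorem char_one_ne {chi : G → ℂ} (h : IsIrrChar chi) : chi 1 ≠ 0 := by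
  obtain ⟨V, _, _, _, rho, hr, rfl⟩ := h
  have : Nontrivial V := by
    by_contra hn
    rw [not_nontrivial_iff_subsingleton] at hn
    have : Subsingleton (Subrepresentation rho) := by
      constructor
      intro a b
      ext x
      have : x = 0 := Subsingleton.elim _ _
      subst this
      simp
    have h5 := hr.toNontrivial
    exact not_subsingleton (Subrepresentation rho) this
  rw [Representation.char_one]
  exact_mod_cast (Module.finrank_pos (R := ℂ) (M := V)).ne'

/-- The function which is `1` at `1` and `0` elsewhere. -/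
def delta (G : Type) [Group G] : G → ℂ := fun g => if g = 1 then 1 else 0

theorem isClass_delta : IsClass (delta G) := by
  intro g y
  unfold delta
  have : y * g * y⁻¹ = 1 ↔ g = 1 := by
    constructor
    · intro h
      have := congrArg (fun z => y⁻¹ * z * y) h
      simpa [mul_assoc] using this
    · rintro rfl; simp
  simp only [this]

theorem B_delta (chi : G → ℂ) : B (delta G) chi = (Nat.card G : ℂ)⁻¹ * chi 1 := by
  unfold B delta
  simp

theorem Top_delta {V : Type} [AddCommGroup V] [Module ℂ V] (rho : Representation ℂ G V) :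
    IC.Top rho (delta G) = 1 := by
  unfold IC.Top delta
  simp

theorem Top_smul {V : Type} [AddCommGroup V] [Module ℂ V] (rho : Representation ℂ G V)
    (c : ℂ) (f : G → ℂ) : IC.Top rho (c • f) = c • IC.Top rho f := by
  unfold IC.Top
  rw [Finset.smul_sum]
  refine Finset.sum_congr rfl fun g _ => ?_
  simp [smul_smul]

theorem Top_sub {V : Type} [AddCommGroup V] [Module ℂ V] (rho : Representation ℂ G V)
    (f h : G → ℂ) : IC.Top rho (f - h) = IC.Top rho f - IC.Top rho h := by
  unfold IC.Top
  rw [← Finset.sum_sub_distrib]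
  refine Finset.sum_congr rfl fun g _ => ?_
  simp [sub_smul]

/-- A class function acts on an irreducible representation by a scalar. -/
theorem Top_scalar {V : Type} [AddCommGroup V] [Module ℂ V] [FiniteDimensional ℂ V]
    (rho : Representation ℂ G V) [hirr : rho.IsIrreducible] (f : G → ℂ) (hf : IsClass f) :
    IC.Top rho f = ((Nat.card G : ℂ) * B f rho.character / rho.character 1) • 1 := by
  have h1 : rho.character 1 ≠ 0 := char_one_ne ⟨V, _, _, inferInstance, rho, hirr, rfl⟩
  set c : ℂ := (Nat.card G : ℂ) * B f rho.character / rho.character 1 with hc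
  have h2 : B (f - c • delta G) rho.character = 0 := by
    rw [B_sub_left, B_smul_left, B_delta, hc]
    have := cardG_ne (G := G)
    field_simp
    ring
  have h3 : IsClass (f - c • delta G) := by
    intro g y
    simp only [Pi.sub_apply, Pi.smul_apply]
    rw [hf g y, isClass_delta g y]
  have h4 := Top_zero_of_irr rho _ h3 h2
  rw [Top_sub, Top_smul, Top_delta] at h4
  exact sub_eq_zero.1 h4

/-- A class function `f` with `f * f = |G| f` has inner product `0` or `χ(1)` with `χ`. -/
theorem idem_B {f : G → ℂ} (hf : IsClass f)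
    (hff : (fun g => ∑ x : G, f x * f (g * x⁻¹)) = (Nat.card G : ℂ) • f) {chi : G → ℂ}
    (h : IsIrrChar chi) : B f chi = 0 ∨ B f chi = chi 1 := by
  have h1 := char_one_ne h
  obtain ⟨V, _, _, _, rho, hr, rfl⟩ := h
  have h2 := Top_comp rho f f
  rw [hff, Top_smul, Top_scalar rho f hf] at h2
  have h3 : Nontrivial V := by
    by_contra hn
    rw [not_nontrivial_iff_subsingleton] at hn
    apply h1
    rw [Representation.char_one, Module.finrank_zero_of_subsingleton, Nat.cast_zero]
  obtain ⟨v, hv⟩ := exists_ne (0 : V)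
  have h4 := LinearMap.congr_fun h2 v
  simp only [Module.End.mul_apply, LinearMap.smul_apply, Module.End.one_apply, smul_smul] at h4
  have h5 := smul_left_injective ℂ hv h4
  have hG := cardG_ne (G := G)
  have h6 : B f rho.character * (B f rho.character - rho.character 1) = 0 := by
    field_simp at h5
    linear_combination h5
  rcases mul_eq_zero.1 h6 with h7 | h7
  · exact Or.inl h7
  · exact Or.inr (sub_eq_zero.1 h7)

/-- Class functions with zero convolution have no common irreducible constituent. -/
theorem orth_B {f h : G → ℂ} (hf : IsClass f) (hh : IsClass h)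
    (hfh : (fun g => ∑ x : G, f x * h (g * x⁻¹)) = 0) {chi : G → ℂ}
    (hc : IsIrrChar chi) : B f chi = 0 ∨ B h chi = 0 := by
  have h1 := char_one_ne hc
  obtain ⟨V, _, _, _, rho, hr, rfl⟩ := hc
  have h2 := Top_comp rho f h
  rw [hfh, Top_scalar rho f hf, Top_scalar rho h hh] at h2
  have h3 : Nontrivial V := by
    by_contra hn
    rw [not_nontrivial_iff_subsingleton] at hn
    apply h1
    rw [Representation.char_one, Module.finrank_zero_of_subsingleton, Nat.cast_zero]
  obtain ⟨v, hv⟩ := exists_ne (0 : V)
  have h4 := LinearMap.congr_fun h2 v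
  have h0 : IC.Top rho (0 : G → ℂ) = 0 := by simp [IC.Top]
  rw [h0] at h4
  simp only [Module.End.mul_apply, LinearMap.smul_apply, Module.End.one_apply, smul_smul,
    LinearMap.zero_apply] at h4
  have h5 := (smul_eq_zero.1 h4).resolve_right hv
  have hG := cardG_ne (G := G)
  have h6 : B f rho.character * B h rho.character = 0 := by
    field_simp at h5
    simpa using h5
  exact mul_eq_zero.1 h6

end General

variable {n : ℕ} {F : Type} [Field F] [Fintype F] {θ : AddChar F ℂ}

theorem isClass_orbitSum (lam : Module.Dual F (nil n F)) : IsClass (orbitSum θ lam) := by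
  intro g y
  rw [orbitSum_eq, orbitSum_eq]
  have h : sub1 (y * g * y⁻¹) = act y y⁻¹ (sub1 g) := by
    ext1
    simp only [coe_sub1, mat_mul, coe_act, mul_sub, sub_mul, mul_one, mat_mul_inv]
  rw [h, FF_act]

theorem card_UT : (Nat.card (UT n F) : ℂ) = (Fintype.card (nil n F) : ℂ) := by
  rw [Nat.card_eq_fintype_card, Fintype.card_congr equivNil]

theorem orbitSum_conv (hθ : θ ≠ 1) (lam lam' : Module.Dual F (nil n F)) :
    (fun g => ∑ x : UT n F, orbitSum θ lam x * orbitSum θ lam' (g * x⁻¹))
      = if dualOrbit lam = dualOrbit lam' then (Nat.card (UT n F) : ℂ) • orbitSum θ lam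
        else 0 := by
  funext g
  have h1 : ∀ x : UT n F, orbitSum θ lam x * orbitSum θ lam' (g * x⁻¹)
      = FF θ lam (equivNil x) * FF θ lam' (sub1 g - equivNil x) := by
    intro x
    rw [orbitSum_eq, orbitSum_eq, equivNil_apply]
    have h : sub1 (g * x⁻¹) = act 1 x⁻¹ (sub1 g - sub1 x) := by
      ext1
      simp only [coe_sub1, mat_mul, coe_act, sub_mul, mat_one, one_mul,
        Submodule.coe_sub, mat_mul_inv]
      abel
    rw [h, FF_act]
  rw [Finset.sum_congr rfl fun x _ => h1 x,
    Equiv.sum_comp equivNil (fun z => FF θ lam z * FF θ lam' (sub1 g - z)), FF_conv hθ]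
  split_ifs with h
  · rw [Pi.smul_apply, card_UT, smul_eq_mul, orbitSum_eq]
  · rfl

/-- The inner product of an orbit sum with an irreducible character is `0` or `χ(1)`. -/
theorem B_orbitSum (hθ : θ ≠ 1) (lam : Module.Dual F (nil n F)) {chi : UT n F → ℂ}
    (h : IsIrrChar chi) : B (orbitSum θ lam) chi = 0 ∨ B (orbitSum θ lam) chi = chi 1 := by
  refine idem_B (isClass_orbitSum lam) ?_ h
  rw [orbitSum_conv hθ, if_pos rfl]

/-- Distinct orbits have disjoint sets of constituents. -/
theorem orbit_unique (hθ : θ ≠ 1) {lam lam' : Module.Dual F (nil n F)} {chi : UT n F → ℂ}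
    (h : IsIrrChar chi) (h1 : B (orbitSum θ lam) chi ≠ 0) (h2 : B (orbitSum θ lam') chi ≠ 0) :
    dualOrbit lam = dualOrbit lam' := by
  by_contra hne
  have h3 := orbitSum_conv hθ lam lam'
  rw [if_neg hne] at h3
  rcases orth_B (isClass_orbitSum lam) (isClass_orbitSum lam') h3 h with h4 | h4
  · exact h1 h4
  · exact h2 h4

theorem sub1_eq_zero {g : UT n F} : sub1 g = 0 ↔ g = 1 := by
  rw [← sub1_one]
  exact equivNil.injective.eq_iff

/-- Every irreducible character is a constituent of some orbit sum. -/
theorem orbit_exists (hθ : θ ≠ 1) {chi : UT n F → ℂ} (h : IsIrrChar chi) :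
    ∃ lam : Module.Dual F (nil n F), B (orbitSum θ lam) chi ≠ 0 := by
  by_contra hcon
  push Not at hcon
  have h1 : (∑ lam : Module.Dual F (nil n F),
      ((((dualOrbit lam).toFinset.card : ℂ))⁻¹ • orbitSum θ lam))
      = (Fintype.card (Module.Dual F (nil n F)) : ℂ) • delta (UT n F) := by
    funext g
    rw [Finset.sum_apply]
    have h2 : ∀ lam : Module.Dual F (nil n F),
        ((((dualOrbit lam).toFinset.card : ℂ))⁻¹ • orbitSum θ lam) g
        = (((dualOrbit lam).toFinset.card : ℂ))⁻¹ * ∑ μ ∈ (dualOrbit lam).toFinset,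
          θ (μ (sub1 g)) := by
      intro lam
      rw [Pi.smul_apply, smul_eq_mul, orbitSum_eq, FF_eq_sum]
    rw [Finset.sum_congr rfl fun lam _ => h2 lam, sum_orbits (fun μ => θ (μ (sub1 g))),
      sum_dual hθ]
    simp only [sub1_eq_zero, Pi.smul_apply, delta, smul_eq_mul, mul_ite, mul_one, mul_zero]
  have h3 := congrArg (fun f => B f chi) h1
  rw [B_sum_left, B_smul_left, B_delta] at h3
  simp only [B_smul_left, hcon, mul_zero, Finset.sum_const_zero] at h3
  have h4 : (Fintype.card (Module.Dual F (nil n F)) : ℂ) ≠ 0 := by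
    exact_mod_cast Fintype.card_ne_zero
  have h5 := char_one_ne h
  have h6 := cardG_ne (G := UT n F)
  exact (mul_ne_zero h4 (mul_ne_zero (inv_ne_zero h6) h5)) h3.symm

end Pool.Agent.Helper7.AS
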