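import Pool.Agent.Helper7.AS.Basic
import Pool.Agent.Helper884.IC.Compl

/-!
# Orbit sums of additive characters on strictly upper triangular matrices
-/

open scoped BigOperators Classical
open Matrix

noncomputable section

namespace Pool.Agent.Helper7.AS

variable {n : ℕ} {F : Type} [Field F]

/-- The function `g ↦ ∑_{μ ∈ U λ U} θ(μ(g - 1))` on `U`. -/
def orbitSum (θ : AddChar F ℂ) (lam : Module.Dual F (nil n F)) (g : UT n F) : ℂ :=
  ∑ᶠ μ ∈ dualOrbit lam, θ (μ (sub1 g))

/-- The function `y ↦ ∑_{μ ∈ U λ U} θ(μ(y))` on `𝔫`. -/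
def FF (θ : AddChar F ℂ) (lam : Module.Dual F (nil n F)) (y : nil n F) : ℂ :=
  ∑ᶠ μ ∈ dualOrbit lam, θ (μ y)

theorem orbitSum_eq (θ : AddChar F ℂ) (lam : Module.Dual F (nil n F)) (g : UT n F) :
    orbitSum θ lam g = FF θ lam (sub1 g) := rfl

theorem FF_act (θ : AddChar F ℂ) (lam : Module.Dual F (nil n F)) (u v : UT n F) (y : nil n F) :
    FF θ lam (act u v y) = FF θ lam y := by
  unfold FF
  refine finsum_mem_eq_of_bijOn (fun μ => μ ∘ₗ act u v) ⟨?_, ?_, ?_⟩ fun μ _ => rfl
  · rintro μ ⟨a, b, rfl⟩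
    refine ⟨a * u, v * b, ?_⟩
    ext z
    simp only [LinearMap.comp_apply, act_act]
  · intro μ _ ν _ h
    ext z
    have h1 := LinearMap.congr_fun h (act u⁻¹ v⁻¹ z)
    simpa [act_act] using h1
  · rintro μ ⟨a, b, rfl⟩
    refine ⟨lam ∘ₗ act (a * u⁻¹) (v⁻¹ * b), ⟨_, _, rfl⟩, ?_⟩
    ext z
    simp [act_act]

instance finUT [Finite F] : Finite (UT n F) := inferInstance

variable [Fintype F]

instance finDual : Finite (Module.Dual F (nil n F)) :=
  Finite.of_injective (fun μ : Module.Dual F (nil n F) => (μ : nil n F → F)) DFunLike.coe_injective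

instance : Fintype (Module.Dual F (nil n F)) := Fintype.ofFinite _
instance : Fintype (nil n F) := Fintype.ofFinite _
instance : Fintype (UT n F) := Fintype.ofFinite _

theorem FF_eq_sum (θ : AddChar F ℂ) (lam : Module.Dual F (nil n F)) (y : nil n F) :
    FF θ lam y = ∑ μ ∈ (dualOrbit lam).toFinset, θ (μ y) := by
  unfold FF
  rw [finsum_mem_eq_finite_toFinset_sum _ (Set.toFinite _)]
  refine Finset.sum_congr ?_ fun _ _ => rfl
  ext μ
  simp

/-- Orthogonality of the additive characters of `𝔫`. -/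
theorem sum_char {θ : AddChar F ℂ} (hθ : θ ≠ 1) (ν : Module.Dual F (nil n F)) :
    ∑ z : nil n F, θ (ν z) = if ν = 0 then (Fintype.card (nil n F) : ℂ) else 0 := by
  have h := AddChar.sum_eq_ite (θ.compAddMonoidHom ν.toAddMonoidHom)
  have h1 : (θ.compAddMonoidHom ν.toAddMonoidHom = 0) ↔ ν = 0 := by
    constructor
    · intro h2
      by_contra hν
      have hs : Function.Surjective ν := LinearMap.surjective hν
      apply hθ
      ext x
      obtain ⟨z, rfl⟩ := hs x
      have := DFunLike.congr_fun h2 z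
      simpa using this
    · rintro rfl
      ext z
      simp
  simp only [h1] at h
  simpa using h

/-- Orthogonality, in the other variable. -/
theorem sum_dual {θ : AddChar F ℂ} (hθ : θ ≠ 1) (z : nil n F) :
    ∑ μ : Module.Dual F (nil n F), θ (μ z)
      = if z = 0 then (Fintype.card (Module.Dual F (nil n F)) : ℂ) else 0 := by
  let ev : Module.Dual F (nil n F) →+ F := (Module.Dual.eval F (nil n F) z).toAddMonoidHom
  have h := AddChar.sum_eq_ite (θ.compAddMonoidHom ev)
  have h1 : (θ.compAddMonoidHom ev = 0) ↔ z = 0 := by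
    constructor
    · intro h2
      by_contra hz
      have hν : Module.Dual.eval F (nil n F) z ≠ 0 := by
        intro h3
        exact hz ((Module.forall_dual_apply_eq_zero_iff F z).1
          fun φ => by simpa using LinearMap.congr_fun h3 φ)
      have hs : Function.Surjective (Module.Dual.eval F (nil n F) z) := LinearMap.surjective hν
      apply hθ
      ext x
      obtain ⟨μ, rfl⟩ := hs x
      have := DFunLike.congr_fun h2 μ
      simpa [ev] using this
    · rintro rfl
      ext μ
      simp [ev]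
  simp only [h1] at h
  simpa [ev] using h

theorem card_dual : Fintype.card (Module.Dual F (nil n F)) = Fintype.card (nil n F) := by
  have e : nil n F ≃ₗ[F] Module.Dual F (nil n F) := by
    apply LinearEquiv.ofFinrankEq
    exact (Subspace.dual_finrank_eq).symm
  exact (Fintype.card_congr e.toEquiv).symm

/-- Convolution of orbit sums on `𝔫`. -/
theorem FF_conv {θ : AddChar F ℂ} (hθ : θ ≠ 1) (lam lam' : Module.Dual F (nil n F))
    (w : nil n F) :
    ∑ z : nil n F, FF θ lam z * FF θ lam' (w - z)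
      = if dualOrbit lam = dualOrbit lam' then (Fintype.card (nil n F) : ℂ) * FF θ lam w
        else 0 := by
  have h1 : ∀ z : nil n F, FF θ lam z * FF θ lam' (w - z)
      = ∑ μ ∈ (dualOrbit lam).toFinset, ∑ μ' ∈ (dualOrbit lam').toFinset,
        θ (μ' w) * θ ((μ - μ') z) := by
    intro z
    rw [FF_eq_sum, FF_eq_sum, Finset.sum_mul_sum]
    refine Finset.sum_congr rfl fun μ _ => Finset.sum_congr rfl fun μ' _ => ?_
    rw [← AddChar.map_add_eq_mul, ← AddChar.map_add_eq_mul]
    congr 1
    simp only [map_sub, LinearMap.sub_apply]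
    ring
  rw [Finset.sum_congr rfl fun z _ => h1 z, Finset.sum_comm]
  have h2 : ∀ μ : Module.Dual F (nil n F), ∑ z : nil n F, ∑ μ' ∈ (dualOrbit lam').toFinset,
        θ (μ' w) * θ ((μ - μ') z)
      = if μ ∈ dualOrbit lam' then (Fintype.card (nil n F) : ℂ) * θ (μ w) else 0 := by
    intro μ
    rw [Finset.sum_comm]
    have h3 : ∀ μ' : Module.Dual F (nil n F), ∑ z : nil n F, θ (μ' w) * θ ((μ - μ') z)
        = if μ' = μ then (Fintype.card (nil n F) : ℂ) * θ (μ w) else 0 := by
      intro μ'
      rw [← Finset.mul_sum, sum_char hθ]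
      by_cases h : μ' = μ
      · subst h
        simp [mul_comm]
      · rw [if_neg h, if_neg (fun h' => h (sub_eq_zero.1 h').symm), mul_zero]
    rw [Finset.sum_congr rfl fun μ' _ => h3 μ', Finset.sum_ite_eq']
    simp
  rw [Finset.sum_congr rfl fun μ _ => h2 μ]
  by_cases h : dualOrbit lam = dualOrbit lam'
  · rw [if_pos h, FF_eq_sum, Finset.mul_sum]
    refine Finset.sum_congr rfl fun μ hμ => ?_
    rw [Set.mem_toFinset, h] at hμ
    rw [if_pos hμ]
  · rw [if_neg h]
    refine Finset.sum_eq_zero fun μ hμ => ?_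
    rw [Set.mem_toFinset] at hμ
    rw [if_neg]
    intro h4
    exact h ((dualOrbit_eq hμ).symm.trans (dualOrbit_eq h4))

/-- Averaging over orbits. -/
theorem sum_orbits (f : Module.Dual F (nil n F) → ℂ) :
    ∑ lam : Module.Dual F (nil n F), (((dualOrbit lam).toFinset.card : ℂ))⁻¹ *
      ∑ μ ∈ (dualOrbit lam).toFinset, f μ = ∑ μ : Module.Dual F (nil n F), f μ := by
  have h1 : ∀ lam : Module.Dual F (nil n F), (((dualOrbit lam).toFinset.card : ℂ))⁻¹ *
      ∑ μ ∈ (dualOrbit lam).toFinset, f μ
      = ∑ μ : Module.Dual F (nil n F), if μ ∈ dualOrbit lam then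
          (((dualOrbit μ).toFinset.card : ℂ))⁻¹ * f μ else 0 := by
    intro lam
    rw [Finset.mul_sum, ← Finset.sum_filter]
    refine Finset.sum_congr (by ext; simp) fun μ hμ => ?_
    have : dualOrbit μ = dualOrbit lam := dualOrbit_eq (by simpa using hμ)
    rw [this]
  rw [Finset.sum_congr rfl fun lam _ => h1 lam, Finset.sum_comm]
  refine Finset.sum_congr rfl fun μ _ => ?_
  have h2 : ∀ lam : Module.Dual F (nil n F), μ ∈ dualOrbit lam ↔ lam ∈ dualOrbit μ := by
    intro lam
    constructor
    · intro h; rw [dualOrbit_eq h]; exact mem_dualOrbit_self _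
    · intro h; rw [dualOrbit_eq h]; exact mem_dualOrbit_self _
  simp only [h2]
  rw [← Finset.sum_filter, Finset.sum_const]
  have h3 : (Finset.univ.filter fun lam => lam ∈ dualOrbit μ) = (dualOrbit μ).toFinset := by
    ext; simp
  rw [h3, nsmul_eq_mul, ← mul_assoc, mul_inv_cancel₀, one_mul]
  rw [Nat.cast_ne_zero]
  exact (Finset.card_pos.2 ⟨μ, by simpa using mem_dualOrbit_self μ⟩).ne'

end Pool.Agent.Helper7.AS
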