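import Pool.Agent.Helper7.AS.Box

/-!
# The single-box supercharacters are irreducible characters
-/

open scoped BigOperators Classical
open Pool.Agent.Helper884 Pool.Agent.Helper884.IC
open Matrix

noncomputable section

set_option linter.unusedSectionVars false

namespace Pool.Agent.Helper7.AS

section General

variable {G : Type} [Group G] [Fintype G]

/-- A character of norm one is irreducible. -/
theorem irr_of_norm_one {V : Type} [AddCommGroup V] [Module ℂ V] [FiniteDimensional ℂ V]
    (rho : Representation ℂ G V) (h : B rho.character rho.character = 1) :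
    IsIrrChar rho.character := by
  have hI : Invertible (Nat.card G : ℂ) := invertibleOfNonzero cardG_ne
  have hnat : ∀ χ : G → ℂ, IsIrrChar χ → ∃ m : ℕ, B rho.character χ = m := by
    rintro χ ⟨W, _, _, _, sigma, hs, rfl⟩
    refine ⟨_, Representation.card_inv_mul_sum_char_mul_char_eq_finrank sigma rho⟩
  choose! m hm using hnat
  have h1 : (∑ χ ∈ Irr G, (m χ) ^ 2 : ℕ) = 1 := by
    have h2 := B_expand rho.character rho.character (isClass_char rho)
    rw [h] at h2
    have h3 : ∀ χ ∈ Irr G, B rho.character χ * B χ rho.character = ((m χ) ^ 2 : ℕ) := by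
      intro χ hχ
      rw [B_comm χ, hm χ (mem_Irr.1 hχ)]
      push_cast
      ring
    rw [Finset.sum_congr rfl h3] at h2
    exact_mod_cast h2.symm
  obtain ⟨ψ, hψ, hψ1⟩ : ∃ ψ ∈ Irr G, m ψ ≠ 0 := by
    by_contra hcon
    push Not at hcon
    rw [Finset.sum_eq_zero] at h1
    · exact zero_ne_one h1
    · intro χ hχ
      rw [hcon χ hχ]
      rfl
  rw [← Finset.add_sum_erase _ _ hψ] at h1
  have h4 : 0 < (m ψ) ^ 2 := by positivity
  have h5 : ∑ χ ∈ (Irr G).erase ψ, (m χ) ^ 2 = 0 := by omega
  have h6 : (m ψ) ^ 2 = 1 := by omega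
  have h7 : m ψ = 1 := by
    rcases Nat.eq_zero_or_pos (m ψ) with h8 | h8
    · exact absurd h8 hψ1
    · nlinarith
  have h8 : rho.character = ψ := by
    rw [expand rho.character (isClass_char rho), ← Finset.add_sum_erase _ _ hψ,
      hm ψ (mem_Irr.1 hψ), h7, Nat.cast_one, one_smul]
    rw [Finset.sum_eq_zero, add_zero]
    intro χ hχ
    rw [hm χ (mem_Irr.1 (Finset.mem_of_mem_erase hχ))]
    have := (Finset.sum_eq_zero_iff.1 h5) χ hχ
    have h9 : m χ = 0 := by
      rcases Nat.eq_zero_or_pos (m χ) with h10 | h10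
      · exact h10
      · have : 0 < (m χ) ^ 2 := by positivity
        omega
    rw [h9, Nat.cast_zero, zero_smul]
  rw [h8]
  exact mem_Irr.1 hψ

end General

variable {n : ℕ} {F : Type} [Field F]

/-- The entries strictly between `i` and `j` of a vector. -/
def tr (i j : Fin n) (w : Fin n → F) : V0 F i j :=
  ⟨fun l => if i < l ∧ l < j then w l else 0, fun _ hl => if_neg hl⟩

theorem tr_apply (i j : Fin n) (w : Fin n → F) (l : Fin n) :
    (tr i j w : Fin n → F) l = if i < l ∧ l < j then w l else 0 := rfl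

/-- The vector `(e_i + r) g`. -/
def rg (i : Fin n) (r : Fin n → F) (g : UT n F) : Fin n → F := (Pi.single i 1 + r) ᵥ* mat g

theorem rg_apply (i : Fin n) (r : Fin n → F) (g : UT n F) (l : Fin n) :
    rg i r g l = ∑ k, (Pi.single i 1 + r : Fin n → F) k * mat g k l := rfl

theorem rg_low {i j : Fin n} {r : Fin n → F} (hr : r ∈ V0 F i j) (g : UT n F) {l : Fin n}
    (hl : l < i) : rg i r g l = 0 := by
  rw [rg_apply]
  refine Finset.sum_eq_zero fun k _ => ?_
  rcases lt_or_ge k i with h | h
  · rw [Pi.add_apply, Pi.single_eq_of_ne h.ne, hr k (fun h' => absurd h'.1 h.not_gt), add_zero,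
      zero_mul]
  · rw [mat_upper g k l (hl.trans_le h), mul_zero]

theorem rg_i {i j : Fin n} {r : Fin n → F} (hr : r ∈ V0 F i j) (g : UT n F) :
    rg i r g i = 1 := by
  rw [rg_apply]
  rw [Finset.sum_eq_single i]
  · rw [Pi.add_apply, Pi.single_eq_same, hr i (fun h' => lt_irrefl _ h'.1), mat_diag]
    ring
  · intro k _ hk
    rcases lt_or_gt_of_ne hk with h | h
    · rw [Pi.add_apply, Pi.single_eq_of_ne h.ne, hr k (fun h' => absurd h'.1 h.not_gt), add_zero,
        zero_mul]
    · rw [mat_upper g k i h, mul_zero]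
  · intro h
    exact absurd (Finset.mem_univ _) h

theorem rg_eq_tr {i j : Fin n} {r : Fin n → F} (hr : r ∈ V0 F i j) (g : UT n F) {l : Fin n}
    (hl : l < j) : rg i r g l = (Pi.single i 1 + (tr i j (rg i r g) : Fin n → F) : Fin n → F) l := by
  rw [Pi.add_apply, tr_apply]
  rcases lt_trichotomy l i with h | h | h
  · rw [rg_low hr g h, Pi.single_eq_of_ne h.ne, if_neg (fun h' => absurd h'.1 h.not_gt), add_zero]
  · subst h
    rw [rg_i hr, Pi.single_eq_same, if_neg (fun h' => lt_irrefl _ h'.1), add_zero]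
  · rw [Pi.single_eq_of_ne h.ne', if_pos ⟨h, hl⟩, zero_add]

theorem tr_j {i j : Fin n} (hij : i < j) (w : Fin n → F) :
    (Pi.single i 1 + (tr i j w : Fin n → F) : Fin n → F) j = 0 := by
  rw [Pi.add_apply, tr_apply, Pi.single_eq_of_ne hij.ne', if_neg (fun h => lt_irrefl _ h.2),
    add_zero]

theorem rg_mul (i : Fin n) (r : Fin n → F) (g h : UT n F) :
    rg i r (g * h) = rg i r g ᵥ* mat h := by
  unfold rg
  rw [mat_mul, Matrix.vecMul_vecMul]

theorem rg_mul_of_lt {i j : Fin n} {r : Fin n → F} (hr : r ∈ V0 F i j) (g h : UT n F)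
    {l : Fin n} (hl : l < j) :
    rg i r (g * h) l = rg i (tr i j (rg i r g) : Fin n → F) h l := by
  rw [rg_mul, rg_apply]
  show ∑ k, rg i r g k * mat h k l = _
  refine Finset.sum_congr rfl fun k _ => ?_
  rcases lt_or_ge l k with h1 | h1
  · rw [mat_upper h k l h1, mul_zero, mul_zero]
  · congr 1
    exact rg_eq_tr hr g (h1.trans_lt hl)

theorem rg_mul_j {i j : Fin n} (hij : i < j) {r : Fin n → F} (hr : r ∈ V0 F i j) (g h : UT n F) :
    rg i r (g * h) j = rg i r g j + rg i (tr i j (rg i r g) : Fin n → F) h j := by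
  rw [rg_mul]
  have h1 : rg i (tr i j (rg i r g) : Fin n → F) h j = ∑ k ∈ Finset.univ.erase j,
      (Pi.single i 1 + (tr i j (rg i r g) : Fin n → F) : Fin n → F) k * mat h k j := by
    show ∑ k, (Pi.single i 1 + (tr i j (rg i r g) : Fin n → F) : Fin n → F) k * mat h k j = _
    rw [← Finset.add_sum_erase _ _ (Finset.mem_univ j), tr_j hij, zero_mul, zero_add]
  have h2 : (rg i r g ᵥ* mat h) j = rg i r g j + ∑ k ∈ Finset.univ.erase j,
      rg i r g k * mat h k j := by
    show ∑ k, rg i r g k * mat h k j = _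
    rw [← Finset.add_sum_erase _ _ (Finset.mem_univ j), mat_diag, mul_one]
  rw [h1, h2]
  congr 1
  refine Finset.sum_congr rfl fun k hk => ?_
  rcases lt_or_ge k j with h3 | h3
  · rw [← rg_eq_tr hr g h3]
  · have h4 : j < k := lt_of_le_of_ne h3 (Finset.ne_of_mem_erase hk).symm
    rw [mat_upper h k j h4, mul_zero, mul_zero]

/-- The monomial representation attached to a box. -/
def boxRep (θ : AddChar F ℂ) {i j : Fin n} (hij : i < j) (a : F) :
    Representation ℂ (UT n F) (V0 F i j → ℂ) where
  toFun g :=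
    { toFun := fun f r => θ (a * rg i (r : Fin n → F) g j) * f (tr i j (rg i (r : Fin n → F) g))
      map_add' := fun f f' => by
        funext r
        simp only [Pi.add_apply, mul_add]
      map_smul' := fun c f => by
        funext r
        simp only [Pi.smul_apply, smul_eq_mul, RingHom.id_apply]
        ring }
  map_one' := by
    ext f r
    simp only [LinearMap.coe_mk, AddHom.coe_mk, Module.End.one_apply]
    have h1 : rg i (r : Fin n → F) 1 = Pi.single i 1 + (r : Fin n → F) := by
      unfold rg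
      rw [mat_one, vecMul_one]
    have h2 : rg i (r : Fin n → F) 1 j = 0 := by
      rw [h1, Pi.add_apply, Pi.single_eq_of_ne hij.ne', r.2 j (fun h => lt_irrefl _ h.2), add_zero]
    have h3 : tr i j (rg i (r : Fin n → F) 1) = r := by
      ext l
      rw [tr_apply, h1, Pi.add_apply]
      by_cases h : i < l ∧ l < j
      · rw [if_pos h, Pi.single_eq_of_ne h.1.ne', zero_add]
      · rw [if_neg h, r.2 l h]
    rw [h2, h3, mul_zero, AddChar.map_zero_eq_one, one_mul]
  map_mul' := fun g h => by
    ext f r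
    simp only [LinearMap.coe_mk, AddHom.coe_mk, Module.End.mul_apply]
    have h3 : tr i j (rg i (r : Fin n → F) (g * h))
        = tr i j (rg i (tr i j (rg i (r : Fin n → F) g) : Fin n → F) h) := by
      ext l
      rw [tr_apply, tr_apply]
      by_cases h' : i < l ∧ l < j
      · rw [if_pos h', if_pos h', rg_mul_of_lt r.2 g h h'.2]
      · rw [if_neg h', if_neg h']
    rw [h3, rg_mul_j hij r.2, mul_add, AddChar.map_add_eq_mul, mul_assoc]

theorem boxRep_apply (θ : AddChar F ℂ) {i j : Fin n} (hij : i < j) (a : F) (g : UT n F)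
    (f : V0 F i j → ℂ) (r : V0 F i j) : boxRep θ hij a g f r
      = θ (a * rg i (r : Fin n → F) g j) * f (tr i j (rg i (r : Fin n → F) g)) := rfl

variable [Fintype F] {θ : AddChar F ℂ}

theorem boxRep_char {i j : Fin n} (hij : i < j) (a : F) (g : UT n F) :
    (boxRep θ hij a).character g = ∑ r : V0 F i j,
      if tr i j (rg i (r : Fin n → F) g) = r then θ (a * rg i (r : Fin n → F) g j) else 0 := by
  unfold Representation.character
  rw [LinearMap.trace_eq_matrix_trace ℂ (Pi.basisFun ℂ (V0 F i j)), Matrix.trace]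
  refine Finset.sum_congr rfl fun r _ => ?_
  rw [Matrix.diag_apply, LinearMap.toMatrix_apply, Pi.basisFun_repr, Pi.basisFun_apply,
    boxRep_apply, Pi.single_apply]
  split_ifs <;> simp

/-- The single-box supercharacter is the character of the monomial representation. -/
theorem boxChar_eq (hθ : θ ≠ 1) {i j : Fin n} (hij : i < j) {a : F} (ha : a ≠ 0) :
    boxChar θ i j a = (boxRep θ hij a).character := by
  funext g
  have hq : ((Fintype.card F : ℂ) ^ ((j : ℕ) - i - 1)) ≠ 0 := by
    apply pow_ne_zero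
    exact_mod_cast Fintype.card_ne_zero
  unfold boxChar
  rw [orbitSum_eq, FF_box' hθ hij ha, ← mul_assoc, inv_mul_cancel₀ hq, one_mul, boxRep_char]
  refine Finset.sum_congr rfl fun r _ => ?_
  have h1 : ∀ l, ((Pi.single i 1 + (r : Fin n → F)) ᵥ* (sub1 g : Matrix (Fin n) (Fin n) F)) l
      = rg i (r : Fin n → F) g l - (Pi.single i 1 + (r : Fin n → F) : Fin n → F) l := by
    intro l
    rw [coe_sub1, Matrix.vecMul_sub, Pi.sub_apply, Matrix.vecMul_one]
    rfl
  have h2 : Van i j ((Pi.single i 1 + (r : Fin n → F)) ᵥ* (sub1 g : Matrix (Fin n) (Fin n) F))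
      ↔ tr i j (rg i (r : Fin n → F) g) = r := by
    constructor
    · intro h
      ext l
      rw [tr_apply]
      by_cases h' : i < l ∧ l < j
      · rw [if_pos h']
        have h3 := h l h'.1 h'.2
        rw [h1, Pi.add_apply, Pi.single_eq_of_ne h'.1.ne', zero_add] at h3
        exact sub_eq_zero.1 h3
      · rw [if_neg h', r.2 l h']
    · intro h l hl hl'
      rw [h1, Pi.add_apply, Pi.single_eq_of_ne hl.ne', zero_add, sub_eq_zero]
      have h3 := congrFun (congrArg Subtype.val h) l
      rw [tr_apply, if_pos ⟨hl, hl'⟩] at h3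
      exact h3
  have h3 : ((Pi.single i 1 + (r : Fin n → F)) ᵥ* (sub1 g : Matrix (Fin n) (Fin n) F)) j
      = rg i (r : Fin n → F) g j := by
    rw [h1, Pi.add_apply, Pi.single_eq_of_ne hij.ne', r.2 j (fun h => lt_irrefl _ h.2), add_zero,
      sub_zero]
  simp only [h2, h3]

theorem orbitSum_box (i j : Fin n) (a : F) :
    orbitSum θ (boxFun i j a)
      = ((Fintype.card F : ℂ) ^ ((j : ℕ) - i - 1)) • boxChar θ i j a := by
  have hq : ((Fintype.card F : ℂ) ^ ((j : ℕ) - i - 1)) ≠ 0 := by
    apply pow_ne_zero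
    exact_mod_cast Fintype.card_ne_zero
  funext g
  rw [Pi.smul_apply, smul_eq_mul, boxChar, ← mul_assoc, mul_inv_cancel₀ hq, one_mul]

theorem boxChar_one (hθ : θ ≠ 1) {i j : Fin n} (hij : i < j) {a : F} (ha : a ≠ 0) :
    boxChar θ i j a (1 : UT n F) = (Fintype.card F : ℂ) ^ ((j : ℕ) - i - 1) := by
  rw [boxChar_eq hθ hij ha, Representation.char_one, Module.finrank_pi, card_V0]
  push_cast
  rfl

/-- The single-box supercharacters are irreducible characters. -/
theorem boxChar_irr (hθ : θ ≠ 1) {i j : Fin n} (hij : i < j) {a : F} (ha : a ≠ 0) :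
    IsIrrChar (boxChar θ i j a : UT n F → ℂ) := by
  have hq : ((Fintype.card F : ℂ) ^ ((j : ℕ) - i - 1)) ≠ 0 := by
    apply pow_ne_zero
    exact_mod_cast Fintype.card_ne_zero
  have hG := cardG_ne (G := UT n F)
  have h1 : B (orbitSum θ (boxFun i j a)) (orbitSum θ (boxFun i j a))
      = orbitSum θ (boxFun i j a) (1 : UT n F) := by
    have h2 := congrFun (orbitSum_conv hθ (boxFun i j a) (boxFun i j a)) (1 : UT n F)
    rw [if_pos rfl] at h2
    unfold B
    simp only [one_mul] at h2
    rw [h2, Pi.smul_apply, smul_eq_mul, ← mul_assoc, inv_mul_cancel₀ hG, one_mul]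
  have h2 : B (boxChar θ i j a : UT n F → ℂ) (boxChar θ i j a) = 1 := by
    rw [orbitSum_box, B_smul_left, B_comm, B_smul_left, Pi.smul_apply, smul_eq_mul,
      boxChar_one hθ hij ha] at h1
    have h3 := mul_left_cancel₀ hq h1
    have h4 : ((Fintype.card F : ℂ) ^ ((j : ℕ) - i - 1)) * B (boxChar θ i j a : UT n F → ℂ)
        (boxChar θ i j a) = ((Fintype.card F : ℂ) ^ ((j : ℕ) - i - 1)) * 1 := by
      rw [h3, mul_one]
    exact mul_left_cancel₀ hq h4
  rw [boxChar_eq hθ hij ha] at h2 ⊢
  exact irr_of_norm_one _ h2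

/-- The block of the functional of a box consists of the single-box supercharacter. -/
theorem constituents_box (hθ : θ ≠ 1) {i j : Fin n} (hij : i < j) {a : F} (ha : a ≠ 0) :
    constituents θ (boxFun i j a : Module.Dual F (nil n F)) = {boxChar θ i j a} := by
  have hq : ((Fintype.card F : ℂ) ^ ((j : ℕ) - i - 1)) ≠ 0 := by
    apply pow_ne_zero
    exact_mod_cast Fintype.card_ne_zero
  have hirr := boxChar_irr (n := n) hθ hij ha
  ext χ
  rw [mem_constituents, Set.mem_singleton_iff, orbitSum_box, B_smul_left]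
  constructor
  · rintro ⟨h1, h2⟩
    rw [B_irr hirr h1] at h2
    by_contra h3
    rw [if_neg (fun h => h3 h.symm), mul_zero] at h2
    exact h2 rfl
  · rintro rfl
    refine ⟨hirr, ?_⟩
    rw [B_irr hirr hirr, if_pos rfl, mul_one]
    exact hq

end Pool.Agent.Helper7.AS
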