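import Pool.Agent.Helper7.AS.Rep

/-!
# The single-box supercharacters separate the superclasses
-/

open scoped BigOperators Classical
open Matrix

noncomputable section

set_option linter.unusedSectionVars false

namespace Pool.Agent.Helper7.AS

variable {n : ℕ} {F : Type} [Field F]

/-- The rows with index at least `k` of `y` contain at most one nonzero entry in each row, and at
most one nonzero entry in each column. -/
def BasicFrom (k : ℕ) (y : Matrix (Fin n) (Fin n) F) : Prop :=
  (∀ i : Fin n, k ≤ i → ∀ j j', y i j ≠ 0 → y i j' ≠ 0 → j = j') ∧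
  (∀ i i' : Fin n, k ≤ i → k ≤ i' → ∀ j, y i j ≠ 0 → y i' j ≠ 0 → i = i')

/-- Row operations: adding multiples of lower rows to row `k`. -/
def rowOp (k : Fin n) (c : Fin n → F) (hc : ∀ l, l ≤ k → c l = 0) : UT n F :=
  add1 ⟨fun i l => if i = k then c l else 0, by
    intro i l hil
    show (if i = k then c l else 0) = 0
    split_ifs with h
    · subst h; exact hc l hil
    · rfl⟩

theorem rowOp_apply (k : Fin n) (c : Fin n → F) (hc : ∀ l, l ≤ k → c l = 0)
    (y : Matrix (Fin n) (Fin n) F) (i l : Fin n) :
    (mat (rowOp k c hc) * y) i l = y i l + if i = k then ∑ m, c m * y m l else 0 := by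
  unfold rowOp
  rw [mat_add1, add_mul, one_mul, Matrix.add_apply]
  congr 1
  rw [Matrix.mul_apply]
  show ∑ m, (if i = k then c m else 0) * y m l = _
  split_ifs with h
  · rfl
  · simp

/-- Column operations: adding multiples of column `j` to columns on its right. -/
def colOp (j : Fin n) (c : Fin n → F) (hc : ∀ l, l ≤ j → c l = 0) : UT n F :=
  add1 ⟨fun i l => if i = j then c l else 0, by
    intro i l hil
    show (if i = j then c l else 0) = 0
    split_ifs with h
    · subst h; exact hc l hil
    · rfl⟩

theorem colOp_apply (j : Fin n) (c : Fin n → F) (hc : ∀ l, l ≤ j → c l = 0)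
    (y : Matrix (Fin n) (Fin n) F) (i l : Fin n) :
    (y * mat (colOp j c hc)) i l = y i l + y i j * c l := by
  unfold colOp
  rw [mat_add1, mul_add, mul_one, Matrix.add_apply]
  congr 1
  rw [Matrix.mul_apply]
  show ∑ m, y i m * (if m = j then c l else 0) = _
  simp

/-- Every strictly upper triangular matrix can be brought to a form with at most one nonzero
entry in each row and column. -/
theorem exists_basic (x : nil n F) : ∀ d : ℕ, d ≤ n → ∃ u v : UT n F,
    BasicFrom (n - d) (act u v x : Matrix (Fin n) (Fin n) F) := by
  intro d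
  induction d with
  | zero =>
    intro _
    refine ⟨1, 1, fun i hi => ?_, fun i i' hi => ?_⟩
    · have := i.isLt; omega
    · have := i.isLt; omega
  | succ d ih =>
    intro hd
    obtain ⟨u, v, hb1, hb2⟩ := ih (by omega)
    set y : nil n F := act u v x with hy
    have hk : n - (d + 1) < n := by omega
    set k : Fin n := ⟨n - (d + 1), hk⟩ with hkdef
    have hkv : (k : ℕ) = n - (d + 1) := rfl
    have hlow : ∀ i : Fin n, n - (d + 1) ≤ (i : ℕ) → i = k ∨ n - d ≤ (i : ℕ) := by
      intro i hi
      rcases Nat.lt_or_ge (i : ℕ) (n - d) with h | h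
      · left; apply Fin.ext; omega
      · right; exact h
    -- the pivot row of a column
    let P : Fin n → Fin n → Prop := fun m l => n - d ≤ (m : ℕ) ∧ y.1 m l ≠ 0
    let c : Fin n → F := fun m => if h : ∃ l, P m l then -(y.1 k h.choose / y.1 m h.choose) else 0
    have hc0 : ∀ m, m ≤ k → c m = 0 := by
      intro m hm
      have : ¬ ∃ l, P m l := by
        rintro ⟨l, h1, _⟩
        have : (m : ℕ) ≤ k := hm
        omega
      exact dif_neg this
    have hcP : ∀ m l, P m l → c m = -(y.1 k l / y.1 m l) := by
      intro m l h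
      have hex : ∃ l, P m l := ⟨l, h⟩
      have h1 : c m = -(y.1 k hex.choose / y.1 m hex.choose) := dif_pos hex
      have h2 : hex.choose = l := hb1 m h.1 _ _ hex.choose_spec.2 h.2
      rw [h1, h2]
    set y1 : nil n F := act (rowOp k c hc0) 1 y with hy1
    have hy1a : ∀ i l, y1.1 i l = y.1 i l + if i = k then ∑ m, c m * y.1 m l else 0 := by
      intro i l
      rw [hy1, coe_act, mat_one, mul_one, rowOp_apply]
    have hy1low : ∀ i : Fin n, n - d ≤ (i : ℕ) → ∀ l, y1.1 i l = y.1 i l := by
      intro i hi l
      rw [hy1a, if_neg, add_zero]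
      rintro rfl
      omega
    have hsum : ∀ l, ∑ m, c m * y.1 m l = if h : ∃ m, P m l then -(y.1 k l) else 0 := by
      intro l
      split_ifs with h
      · obtain ⟨m, hm⟩ := h
        rw [Finset.sum_eq_single m]
        · rw [hcP m l hm]
          have := hm.2
          field_simp
        · intro m' _ hm'
          by_cases h1 : P m' l
          · exact absurd (hb2 m' m h1.1 hm.1 l h1.2 hm.2) hm'
          · rcases Nat.lt_or_ge (m' : ℕ) (n - d) with h2 | h2
            · rw [hc0 m' (by show (m' : ℕ) ≤ k; omega), zero_mul]
            · have : y.1 m' l = 0 := by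
                by_contra h3
                exact h1 ⟨h2, h3⟩
              rw [this, mul_zero]
        · intro h'; exact absurd (Finset.mem_univ _) h'
      · refine Finset.sum_eq_zero fun m _ => ?_
        rcases Nat.lt_or_ge (m : ℕ) (n - d) with h2 | h2
        · rw [hc0 m (by show (m : ℕ) ≤ k; omega), zero_mul]
        · have : y.1 m l = 0 := by
            by_contra h3
            exact h ⟨m, h2, h3⟩
          rw [this, mul_zero]
    have hy1k : ∀ l, (∃ m : Fin n, n - d ≤ (m : ℕ) ∧ y1.1 m l ≠ 0) → y1.1 k l = 0 := by
      rintro l ⟨m, hm, hml⟩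
      rw [hy1low m hm] at hml
      rw [hy1a, if_pos rfl, hsum, dif_pos ⟨m, hm, hml⟩]
      ring
    by_cases hz : ∃ j, y1.1 k j ≠ 0
    · -- the leftmost nonzero entry in row `k`
      obtain ⟨j, hj, hjmin⟩ : ∃ j, y1.1 k j ≠ 0 ∧ ∀ l, l < j → y1.1 k l = 0 := by
        have hne : (Finset.univ.filter fun j => y1.1 k j ≠ 0).Nonempty := by
          obtain ⟨j, hj⟩ := hz
          exact ⟨j, by simp [hj]⟩
        refine ⟨Finset.min' _ hne, ?_, ?_⟩
        · have := Finset.min'_mem _ hne
          simpa using this
        · intro l hl
          by_contra h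
          have h1 : l ∈ Finset.univ.filter fun j => y1.1 k j ≠ 0 := by simp [h]
          exact absurd (Finset.min'_le _ _ h1) hl.not_ge
      let c' : Fin n → F := fun l => if j < l then -(y1.1 k l / y1.1 k j) else 0
      have hc'0 : ∀ l, l ≤ j → c' l = 0 := fun l hl => if_neg hl.not_gt
      have hcolj : ∀ i : Fin n, n - d ≤ (i : ℕ) → y1.1 i j = 0 := by
        intro i hi
        by_contra h
        exact hj (hy1k j ⟨i, hi, h⟩)
      refine ⟨rowOp k c hc0 * u, v * colOp j c' hc'0, ?_⟩
      have hfin : ∀ i l, (act (rowOp k c hc0 * u) (v * colOp j c' hc'0) x).1 i l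
          = y1.1 i l + y1.1 i j * c' l := by
        intro i l
        have h1 : act (rowOp k c hc0 * u) (v * colOp j c' hc'0) x
            = act 1 (colOp j c' hc'0) y1 := by
          rw [hy1, hy, act_act, act_act, one_mul, one_mul]
        rw [h1, coe_act, mat_one, one_mul, colOp_apply]
      have hfinlow : ∀ i : Fin n, n - d ≤ (i : ℕ) → ∀ l,
          (act (rowOp k c hc0 * u) (v * colOp j c' hc'0) x).1 i l = y.1 i l := by
        intro i hi l
        rw [hfin, hcolj i hi, zero_mul, add_zero, hy1low i hi]
      have hfink : ∀ l, (act (rowOp k c hc0 * u) (v * colOp j c' hc'0) x).1 k l ≠ 0 → l = j := by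
        intro l hl
        by_contra hne
        apply hl
        rw [hfin]
        rcases lt_or_gt_of_ne hne with h | h
        · rw [hjmin l h, hc'0 l h.le, mul_zero, add_zero]
        · have h1 : c' l = -(y1.1 k l / y1.1 k j) := if_pos h
          rw [h1]
          field_simp
          ring
      constructor
      · intro i hi l l' hl hl'
        rcases hlow i hi with rfl | h
        · rw [hfink l hl, hfink l' hl']
        · rw [hfinlow i h] at hl hl'
          exact hb1 i h l l' hl hl'
      · intro i i' hi hi' l hl hl'
        rcases hlow i hi with h1 | h1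
        · rcases hlow i' hi' with h2 | h2
          · rw [h1, h2]
          · exfalso
            rw [h1] at hl
            rw [hfink l hl, hfinlow i' h2, ← hy1low i' h2] at hl'
            exact hl' (hcolj i' h2)
        · rcases hlow i' hi' with h2 | h2
          · exfalso
            rw [h2] at hl'
            rw [hfink l hl', hfinlow i h1, ← hy1low i h1] at hl
            exact hl (hcolj i h1)
          · rw [hfinlow i h1] at hl
            rw [hfinlow i' h2] at hl'
            exact hb2 i i' h1 h2 l hl hl'
    · push Not at hz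
      refine ⟨rowOp k c hc0 * u, v, ?_⟩
      have h1 : act (rowOp k c hc0 * u) v x = y1 := by
        rw [hy1, hy, act_act, mul_one]
      rw [h1]
      constructor
      · intro i hi l l' hl hl'
        rcases hlow i hi with rfl | h
        · exact absurd (hz l) hl
        · rw [hy1low i h] at hl hl'
          exact hb1 i h l l' hl hl'
      · intro i i' hi hi' l hl hl'
        rcases hlow i hi with rfl | h
        · exact absurd (hz l) hl
        · rcases hlow i' hi' with rfl | h'
          · exact absurd (hz l) hl'
          · rw [hy1low i h] at hl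
            rw [hy1low i' h'] at hl'
            exact hb2 i i' h h' l hl hl'

variable [Fintype F] {θ : AddChar F ℂ}

/-- Value of the orbit sum of a box when there is no obstruction. -/
theorem FF_eval (hθ : θ ≠ 1) {i j : Fin n} (hij : i < j) {a : F} (ha : a ≠ 0) (y : nil n F)
    (h1 : ∀ l, i < l → l < j → y.1 i l = 0) (h2 : ∀ k, i < k → k < j → y.1 k j = 0) :
    ∃ N : ℕ, 0 < N ∧ FF θ (boxFun i j a) y = (N : ℂ) * θ (a * y.1 i j) := by
  let S : Finset (V0 F i j) := Finset.univ.filter fun r =>
    Van i j ((Pi.single i 1 + (r : Fin n → F)) ᵥ* (y : Matrix (Fin n) (Fin n) F))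
  have h3 : ∀ r : V0 F i j,
      ((Pi.single i 1 + (r : Fin n → F)) ᵥ* (y : Matrix (Fin n) (Fin n) F)) j = y.1 i j := by
    intro r
    show ∑ k, (Pi.single i 1 + (r : Fin n → F) : Fin n → F) k * y.1 k j = y.1 i j
    rw [Finset.sum_eq_single i]
    · rw [Pi.add_apply, Pi.single_eq_same, r.2 i (fun h => lt_irrefl _ h.1), add_zero, one_mul]
    · intro k _ hk
      rw [Pi.add_apply, Pi.single_eq_of_ne hk, zero_add]
      by_cases h : i < k ∧ k < j
      · rw [h2 k h.1 h.2, mul_zero]
      · rw [r.2 k h, zero_mul]
    · intro h; exact absurd (Finset.mem_univ _) h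
  refine ⟨Fintype.card F ^ ((j : ℕ) - i - 1) * S.card, ?_, ?_⟩
  · apply Nat.mul_pos
    · exact Nat.pow_pos Fintype.card_pos
    · refine Finset.card_pos.2 ⟨0, ?_⟩
      rw [Finset.mem_filter]
      refine ⟨Finset.mem_univ _, fun l hl hl' => ?_⟩
      show ∑ k, (Pi.single i 1 + (0 : Fin n → F) : Fin n → F) k * y.1 k l = 0
      rw [add_zero, Finset.sum_eq_single i]
      · rw [h1 l hl hl', mul_zero]
      · intro k _ hk
        rw [Pi.single_eq_of_ne hk, zero_mul]
      · intro h; exact absurd (Finset.mem_univ _) h
  · rw [FF_box' hθ hij ha]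
    simp only [h3]
    rw [← Finset.sum_filter, Finset.sum_const, nsmul_eq_mul]
    push_cast
    ring

theorem norm_theta (x : F) : ‖θ x‖ = 1 := by
  have h1 : (θ x) ^ (Fintype.card F) = 1 := by
    rw [← AddChar.map_nsmul_eq_pow, card_nsmul_eq_zero, AddChar.map_zero_eq_one]
  exact Complex.norm_eq_one_of_pow_eq_one h1 Fintype.card_ne_zero

/-- Two matrices with at most one nonzero entry in each row and column, with the same values of
the orbit sums of all boxes, are equal. -/
theorem basic_eq (hθ : θ ≠ 1) {y y' : nil n F}
    (hy : BasicFrom 0 (y : Matrix (Fin n) (Fin n) F))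
    (hy' : BasicFrom 0 (y' : Matrix (Fin n) (Fin n) F))
    (h : ∀ (i j : Fin n) (a : F), i < j → a ≠ 0 →
      FF θ (boxFun i j a) y = FF θ (boxFun i j a) y') : y = y' := by
  have key : ∀ d : ℕ, ∀ i j : Fin n, (j : ℕ) - i = d → y.1 i j = y'.1 i j := by
    intro d
    induction d using Nat.strong_induction_on with
    | _ d ih =>
      intro i j hd
      rcases le_or_gt j i with hij | hij
      · rw [y.2 i j hij, y'.2 i j hij]
      have hij' : (i : ℕ) < j := hij
      have e1 : ∀ l, i < l → l < j → y.1 i l = y'.1 i l := by
        intro l hl hl'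
        have h1 : (i : ℕ) < l := hl
        have h2 : (l : ℕ) < j := hl'
        exact ih ((l : ℕ) - i) (by omega) i l rfl
      have e2 : ∀ k, i < k → k < j → y.1 k j = y'.1 k j := by
        intro k hk hk'
        have h1 : (i : ℕ) < k := hk
        have h2 : (k : ℕ) < j := hk'
        exact ih ((j : ℕ) - k) (by omega) k j rfl
      by_cases o1 : ∀ l, i < l → l < j → y.1 i l = 0
      · by_cases o2 : ∀ k, i < k → k < j → y.1 k j = 0
        · by_contra hne
          have hd0 : y.1 i j - y'.1 i j ≠ 0 := sub_ne_zero.2 hne
          apply hθ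
          ext x
          show θ x = 1
          by_cases hx : x = 0
          · rw [hx, AddChar.map_zero_eq_one]
          set a : F := x / (y.1 i j - y'.1 i j) with ha
          have ha0 : a ≠ 0 := div_ne_zero hx hd0
          obtain ⟨N, hN, hN1⟩ := FF_eval hθ hij ha0 y o1 o2
          obtain ⟨N', hN', hN1'⟩ := FF_eval hθ hij ha0 y'
            (fun l hl hl' => by rw [← e1 l hl hl']; exact o1 l hl hl')
            (fun k hk hk' => by rw [← e2 k hk hk']; exact o2 k hk hk')
          have h1 := h i j a hij ha0
          rw [hN1, hN1'] at h1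
          have h2 : (N : ℝ) = N' := by
            have h3 := congrArg norm h1
            rw [norm_mul, norm_mul, norm_theta, norm_theta] at h3
            simpa using h3
          have h3 : (N : ℂ) = N' := by exact_mod_cast h2
          have h4 : (N' : ℂ) ≠ 0 := by exact_mod_cast hN'.ne'
          rw [h3] at h1
          have h5 := mul_left_cancel₀ h4 h1
          have h6 : x = a * y.1 i j - a * y'.1 i j := by
            rw [← mul_sub, ha, div_mul_cancel₀ _ hd0]
          rw [h6, AddChar.map_sub_eq_div, h5, div_self]
          intro h7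
          have := norm_theta (θ := θ) (a * y'.1 i j)
          rw [h7, norm_zero] at this
          exact zero_ne_one this
        · push Not at o2
          obtain ⟨k, hk, hk', hne⟩ := o2
          have h1 : y.1 i j = 0 := by
            by_contra h2
            exact absurd (hy.2 i k (Nat.zero_le _) (Nat.zero_le _) j h2 hne) hk.ne
          have h2 : y'.1 i j = 0 := by
            by_contra h3
            rw [e2 k hk hk'] at hne
            exact absurd (hy'.2 i k (Nat.zero_le _) (Nat.zero_le _) j h3 hne) hk.ne
          rw [h1, h2]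
      · push Not at o1
        obtain ⟨l, hl, hl', hne⟩ := o1
        have h1 : y.1 i j = 0 := by
          by_contra h2
          exact absurd (hy.1 i (Nat.zero_le _) j l h2 hne) hl'.ne'
        have h2 : y'.1 i j = 0 := by
          by_contra h3
          rw [e1 l hl hl'] at hne
          exact absurd (hy'.1 i (Nat.zero_le _) j l h3 hne) hl'.ne'
        rw [h1, h2]
  ext i j
  exact key _ i j rfl

/-- The single-box supercharacters separate the superclasses. -/
theorem separation (hθ : θ ≠ 1) {g g' : UT n F}
    (h : ∀ (i j : Fin n) (a : F), i < j → a ≠ 0 → boxChar θ i j a g = boxChar θ i j a g') :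
    g' ∈ superclass g := by
  obtain ⟨u, v, hb⟩ := exists_basic (sub1 g) n le_rfl
  obtain ⟨u', v', hb'⟩ := exists_basic (sub1 g') n le_rfl
  rw [Nat.sub_self] at hb hb'
  have h1 : act u v (sub1 g) = act u' v' (sub1 g') := by
    refine basic_eq hθ hb hb' fun i j a hij ha => ?_
    rw [FF_act, FF_act, ← orbitSum_eq, ← orbitSum_eq, orbitSum_box, Pi.smul_apply, Pi.smul_apply,
      h i j a hij ha]
  refine ⟨u'⁻¹ * u, v * v'⁻¹, ?_⟩
  rw [← act_act, h1, act_act, inv_mul_cancel, mul_inv_cancel, act_one]

end Pool.Agent.Helper7.AS
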